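import Pool.Agent.V5helper56.DU.Stm

set_option linter.style.haveILetI false
set_option linter.unusedSectionVars false
set_option linter.unusedVariables false

open NumberField Ideal Module IntermediateField Pool.Agent.W569.FM Pool.Agent.W571.FM Pool.Agent.R417.FK
open Pool.Agent.Helper832_EG Pool.Agent.V5helper56.LI
open scoped Pointwise nonZeroDivisors

namespace Pool.Agent.V5helper56.DU

section
open Pool.Agent.W569.UF.Disc
variable {F Ω : Type} [Field F] [NumberField F] [Field Ω] [Algebra F Ω] [IsGalois F Ω]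

/-- Elements of decomposition groups of finite Galois extensions lift to elements of the decomposition
group. -/
theorem lift_dec (M : IntermediateField F Ω) [NumberField M] [IsGalois F M]
    (P : Ideal (𝓞 M)) (Q : Ideal (𝓞 Ω)) (hQm : Q.IsMaximal) (hQP : Q.LiesOver P)
    (γ : M ≃ₐ[F] M) (hγ : γ • P = P) :
    ∃ τ : Gal(Ω/F), τ • Q = Q ∧ AlgEquiv.restrictNormalHom M τ = γ := by
  classical
  have hclosed : IsClosed (M.fixingSubgroup : Set Gal(Ω/F)) :=
    InfiniteGalois.fixingSubgroup_isClosed M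
  have hcomm : SMulCommClass M.fixingSubgroup (𝓞 M) (𝓞 Ω) := smulComm M
  have hinv : Algebra.IsInvariant (𝓞 M) (𝓞 Ω) M.fixingSubgroup := isInv M
  have hcpt : CompactSpace M.fixingSubgroup := isCompact_iff_compactSpace.1 hclosed.isCompact
  let _ : TopologicalSpace (𝓞 Ω) := ⊥
  have : DiscreteTopology (𝓞 Ω) := ⟨rfl⟩
  have hcont : ContinuousSMul Gal(Ω/F) (𝓞 Ω) := by
    rw [continuousSMul_iff_stabilizer_isOpen]
    intro x
    have h1 := stabilizer_isOpen_of_isIntegral (K := F) (x : Ω)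
    convert h1 using 2
    ext g
    rw [MulAction.mem_stabilizer_iff, MulAction.mem_stabilizer_iff]
    constructor
    · intro h
      exact congrArg (fun z : 𝓞 Ω => (z : Ω)) h
    · intro h
      exact RingOfIntegers.ext h
  have hcontU : ContinuousSMul M.fixingSubgroup (𝓞 Ω) := inferInstance
  obtain ⟨g0, hg0⟩ := AlgEquiv.restrictNormalHom_surjective (F := F) (K₁ := M) Ω γ
  have hres : ∀ a : 𝓞 M, g0 • (algebraMap (𝓞 M) (𝓞 Ω) a) =
      algebraMap (𝓞 M) (𝓞 Ω) (γ • a) := by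
    intro a
    apply RingOfIntegers.ext
    rw [Pool.Agent.W569.UF.Disc.coe_smul]
    have := AlgEquiv.restrictNormal_commutes g0 M (a : M)
    rw [← hg0]
    exact this.symm
  have hres' : ∀ a : 𝓞 M, g0⁻¹ • (algebraMap (𝓞 M) (𝓞 Ω) a) =
      algebraMap (𝓞 M) (𝓞 Ω) (γ⁻¹ • a) := by
    intro a
    rw [inv_smul_eq_iff, hres, smul_inv_smul]
  have hmemP : ∀ a : 𝓞 M, algebraMap (𝓞 M) (𝓞 Ω) a ∈ Q ↔ a ∈ P := by
    intro a
    rw [hQP.over]
    rfl
  have hQ' : (g0 • Q).IsPrime := inferInstance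
  have hunder : (g0 • Q).under (𝓞 M) = Q.under (𝓞 M) := by
    ext a
    rw [Ideal.under_def, Ideal.mem_comap, Ideal.under_def, Ideal.mem_comap,
      Ideal.mem_pointwise_smul_iff_inv_smul_mem, hres', hmemP, hmemP,
      ← Ideal.mem_pointwise_smul_iff_inv_smul_mem, hγ]
  obtain ⟨h, hh⟩ := Algebra.IsInvariant.exists_smul_of_under_eq_of_profinite
    (A := 𝓞 M) (G := M.fixingSubgroup) (g0 • Q) Q hunder
  have hh1 : AlgEquiv.restrictNormalHom M h.1 = 1 := by
    rw [← MonoidHom.mem_ker, M.restrictNormalHom_ker]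
    exact h.2
  refine ⟨h.1 * g0, ?_, ?_⟩
  · rw [mul_smul]
    exact hh.symm
  · rw [map_mul, hh1, hg0, one_mul]

end

theorem t_CHR (hNOO : S_NOO) : S_CHR := by
  intro k _ _ p hp D _ _ hinf hcl Ψ hΨ T hTf hT hI0 hD
  classical
  have hI : ∀ Q : Ideal (OO k), Q.IsMaximal → (p : OO k) ∉ Q → Q.under (𝓞 D) ∉ T → ∀ τ ∈ inertia Q,
      τ ∈ D.fixingSubgroup → Ψ τ = 0 := by
    intro Q hQ hpQ hQT τ hτ hτD
    by_contra hne
    obtain ⟨M, hMn, hMg, hcard, ⟨σ, hσ⟩, hMx, hMr⟩ := exists_ext D hΨ hτD hne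
    refine hne (hI0 Q hQ hpQ hQT ?_ τ hτ hτD)
    haveI : Algebra.IsIntegral (𝓞 M) (𝓞 (AlgebraicClosure k)) := Algebra.IsIntegral.tower_top (R := ℤ)
    haveI := hQ
    have hQm : (Q.under (𝓞 M)).IsMaximal := Ideal.IsMaximal.under (𝓞 M) Q
    have h1 := tame_norm (K := D) (P := Q.under (𝓞 M)) hQm (by
      rw [Ideal.mem_comap, map_natCast]; exact hpQ) hcard hσ
      (((hMr Q hQ).2 ⟨τ, hτ, hτD, hne⟩).2 σ)
    exact h1
  intro x hx
  by_contra hne
  obtain ⟨M, hMn, hMg, hcard, ⟨σ, hσ⟩, hMx, hMr⟩ := exists_ext D hΨ hx hne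
  let W : Ideal (𝓞 D) → Prop := fun 𝔭 => ∃ Q : Ideal (OO k), Q.IsMaximal ∧ Q.under (𝓞 D) = 𝔭 ∧
    ∃ τ ∈ inertia Q, τ ∈ D.fixingSubgroup ∧ Ψ τ ≠ 0
  let ι : Type := {𝔭 : Ideal (𝓞 D) // 𝔭 ∈ T ∧ W 𝔭}
  haveI : Finite T := hTf
  haveI : Finite ι := Finite.of_injective (fun i : ι => (⟨i.1, i.2.1⟩ : T)) (fun i j h =>
    Subtype.ext (congrArg (fun y : T => (y : Ideal (𝓞 D))) h))
  haveI : Fintype ι := Fintype.ofFinite ι
  choose Q hQm hQu hQr using fun i : ι => i.2.2
  have hin : ∀ i, ∀ (γ : Gal(M/D)) (x : 𝓞 M), γ • x - x ∈ (Q i).under (𝓞 M) := fun i => ((hMr (Q i) (hQm i)).2 (hQr i)).2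
  set e := IntermediateField.fixingSubgroupEquiv D with he
  have haway : ∀ i : ι, (p : 𝓞 M) ∉ (Q i).under (𝓞 M) := by
    intro i h
    apply (hT i.1 i.2.1).2.1
    rw [← hQu i, Ideal.mem_comap, map_natCast]
    rw [Ideal.mem_comap, map_natCast] at h
    exact h
  have hR : RamAway D M p (fun i : ι => (Q i).under (𝓞 M)) := by
    refine ⟨fun i => ?_, haway, fun i => ((hMr (Q i) (hQm i)).2 (hQr i)).1, fun P' hP' hpP' hne' => ?_⟩
    · haveI : Algebra.IsIntegral (𝓞 M) (𝓞 (AlgebraicClosure k)) := Algebra.IsIntegral.tower_top (R := ℤ)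
      haveI := hQm i
      exact Ideal.IsMaximal.under (𝓞 M) (Q i)
    · haveI : Algebra.IsIntegral (𝓞 M) (𝓞 (AlgebraicClosure k)) := Algebra.IsIntegral.tower_top (R := ℤ)
      obtain ⟨Q', hQ'm, hQ'P⟩ := Ideal.exists_maximal_ideal_liesOver_of_isIntegral (S := 𝓞 (AlgebraicClosure k)) P'
      have hover : P' = Q'.under (𝓞 M) := hQ'P.over
      have hpQ' : (p : OO k) ∉ Q' := by
        intro h
        apply hpP'
        rw [hover, Ideal.mem_comap, map_natCast]
        exact h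
      rw [hover]
      refine (hMr Q' hQ'm).1 fun τ hτ hτD => ?_
      by_contra hcon
      have hQ'T : Q'.under (𝓞 D) ∈ T := by
        by_contra h
        exact hcon (hI Q' hQ'm hpQ' h τ hτ hτD)
      let i : ι := ⟨Q'.under (𝓞 D), hQ'T, Q', hQ'm, rfl, τ, hτ, hτD, hcon⟩
      obtain ⟨g, hg, hgQ⟩ := trans_fix D (hQm i).isPrime hQ'm.isPrime (hQu i)
      apply hne' i
      rw [hover]
      ext x
      show algebraMap (𝓞 M) (OO k) x ∈ Q' ↔ algebraMap (𝓞 M) (OO k) x ∈ Q i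
      rw [hgQ]
      set γ : Gal(M/D) := AlgEquiv.restrictNormalHom M (e ⟨g⁻¹, D.fixingSubgroup.inv_mem hg⟩) with hγ
      have h2 : algebraMap (𝓞 M) (OO k) (γ • x) = g⁻¹ • algebraMap (𝓞 M) (OO k) x := by
        apply RingOfIntegers.ext
        exact AlgEquiv.restrictNormal_commutes (e ⟨g⁻¹, D.fixingSubgroup.inv_mem hg⟩) M (x : M)
      have h3 : algebraMap (𝓞 M) (OO k) (γ • x) - algebraMap (𝓞 M) (OO k) x ∈ Q i := by
        rw [← map_sub]; exact hin i γ x
      rw [h2] at h3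
      constructor
      · intro h
        have := (Q i).sub_mem h h3
        rwa [sub_sub_cancel] at this
      · intro h
        have := (Q i).add_mem h3 h
        rwa [sub_add_cancel] at this
  have hsplit : SplitAt p D M := by
    intro P hP hpP g hg
    haveI : Algebra.IsIntegral (𝓞 M) (𝓞 (AlgebraicClosure k)) := Algebra.IsIntegral.tower_top (R := ℤ)
    have hP0 : P ≠ ⊥ := by
      rintro rfl
      rw [Ideal.mem_bot] at hpP
      exact (Nat.cast_ne_zero (R := 𝓞 M)).2 hp.out.ne_zero hpP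
    haveI := hP.isMaximal hP0
    obtain ⟨Q', hQ'm, hQ'P⟩ := Ideal.exists_maximal_ideal_liesOver_of_isIntegral (S := 𝓞 (AlgebraicClosure k)) P
    have hover : P = Q'.under (𝓞 M) := hQ'P.over
    have hpQ' : (p : OO k) ∈ Q' := by
      rw [hover, Ideal.mem_comap, map_natCast] at hpP
      exact hpP
    haveI hGalD : IsGalois D (AlgebraicClosure k) := inferInstance
    obtain ⟨τ, hτQ, hτg⟩ := lift_dec (F := D) (Ω := AlgebraicClosure k) M P Q' hQ'm hQ'P g hg
    have hτ0 : Ψ ((e.symm τ : D.fixingSubgroup) : GF k) = 0 := by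
      refine hD Q' hQ'm hpQ' _ (fun x => ?_) (e.symm τ).2
      have h1 : ((e.symm τ : D.fixingSubgroup) : GF k) • x = τ • x := rfl
      rw [h1]
      conv_rhs => rw [← hτQ]
      rw [Ideal.smul_mem_pointwise_smul_iff]
    rw [← hτg]
    apply AlgEquiv.ext
    intro y
    apply Subtype.ext
    have h2 := AlgEquiv.restrictNormal_commutes τ M y
    have h3 := (hMx (y : AlgebraicClosure k)).1 y.2 _ (e.symm τ).2 hτ0
    exact h2.trans h3
  choose u hu0 hu1 hu2 using fun i : ι => (hT i.1 i.2.1).2.2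
  have hund : ∀ i : ι, ((Q i).under (𝓞 M)).under (𝓞 D) = i.1 := by
    intro i
    rw [← hQu i, Ideal.under_under]
  refine hNOO D M p hp.out hinf hcard hcl σ hσ ι (fun i => (Q i).under (𝓞 M)) hR hsplit
    (fun i => hin i σ) u hu0 (fun i z h => ?_) (fun i j hij => ?_)
  · rw [hund] at h
    exact hu1 i z h
  · rw [hund]
    exact hu2 i j.1 j.2.1 (fun h => hij (Subtype.ext h))

end Pool.Agent.V5helper56.DU
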