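import Pool.Agent.V5helper56.LI.Img
import Pool.Agent.V5helper56.DU.CHR

/-!
# The image of the decomposition group at the prime above `p`
-/

set_option autoImplicit false
set_option linter.style.haveILetI false
set_option linter.unusedSectionVars false
set_option linter.unusedVariables false

namespace Pool.Agent.V5helper56.DU

open NumberField IsLocalRing Matrix Pool.Agent.Z384 Pool.Agent.W569.FM Pool.Agent.W571.FM
open Pool.Agent.R417.FK Pool.Agent.Helper832_EG Pool.Agent.V5helper56.LI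

section
variable {k : Type} [Field k] [NumberField k] {p : ℕ} [hp : Fact p.Prime]
variable {A : Type*} [CommRing A] [IsLocalRing A] [IsNoetherianRing A] [TopologicalSpace A] {n : ℕ}

lemma dec_isClosed (P : Ideal (OO k)) : IsClosed (dec P : Set (GF k)) := by
  have h1 : (dec P : Set (GF k)) = ⋂ x : OO k, {g : GF k | x ∈ P ↔ g • x ∈ P} := by
    ext g; simp only [Set.mem_iInter]; rfl
  rw [h1]
  refine isClosed_iInter fun x => ?_
  rw [← isOpen_compl_iff, isOpen_iff_mem_nhds]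
  intro g hg
  have h2 : IsOpen {h : GF k | (g⁻¹ * h) • x = x} :=
    (isOpen_fix_integer x).preimage (continuous_const.mul continuous_id)
  refine Filter.mem_of_superset (h2.mem_nhds (by simp)) ?_
  intro h hh hcon
  apply hg
  have h3 : h • x = g • x := by
    have h4 : (g⁻¹ * h) • x = x := hh
    rw [mul_smul, inv_smul_eq_iff] at h4
    exact h4
  show x ∈ P ↔ g • x ∈ P
  rw [← h3]; exact hcon

lemma dec_conj {P Q : Ideal (OO k)} {g τ : GF k} (hg : ∀ x : OO k, x ∈ Q ↔ g⁻¹ • x ∈ P)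
    (hτ : τ ∈ dec Q) : g⁻¹ * τ * g ∈ dec P := by
  intro x
  have h1 : x ∈ P ↔ g • x ∈ Q := by rw [hg, inv_smul_smul]
  have h2 : (g⁻¹ * τ * g) • x ∈ P ↔ τ • g • x ∈ Q := by
    rw [mul_smul, mul_smul, ← hg]
  rw [h1, h2]
  exact hτ _

/-- **The decomposition group at `p` is dense.** -/
theorem dense_dec (hCHR : S_CHR) (K : IntermediateField k (AlgebraicClosure k)) [FiniteDimensional k K]
    [NumberField K] (hinf : p ≠ 2 ∨ IsTotallyComplex K) (h1 : OnePrime K p) (hcl : ClassPrime p K)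
    {T : Set (Ideal (𝓞 K))} (hTf : T.Finite) (hT : IndepP p K T)
    (U : Subgroup (GF k)) (hUo : IsOpen (U : Set (GF k))) (U' : Subgroup K.fixingSubgroup)
    (hUU : ∀ σ : K.fixingSubgroup, σ ∈ U' ↔ (σ : GF k) ∈ U) (hUn : U'.Normal)
    (hpg : IsPGroup p (K.fixingSubgroup ⧸ U'))
    (hram : ∀ Q : Ideal (OO k), Q.IsMaximal → (p : OO k) ∉ Q → Q.under (𝓞 K) ∉ T →
      p ∣ Ideal.absNorm (Q.under (𝓞 K)) - 1 → ∀ σ ∈ inertia Q, σ ∈ K.fixingSubgroup → σ ∈ U)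
    {P : Ideal (OO k)} (hP : P.IsMaximal) (hpP : (p : OO k) ∈ P) {g : GF k}
    (hg : g ∈ K.fixingSubgroup) : ∃ δ ∈ dec P ⊓ K.fixingSubgroup, δ⁻¹ * g ∈ U := by
  classical
  have hNc : IsClosed (K.fixingSubgroup : Set (GF k)) := InfiniteGalois.fixingSubgroup_isClosed K
  haveI : CompactSpace K.fixingSubgroup := isCompact_iff_compactSpace.1 hNc.isCompact
  have hU'o : IsOpen (U' : Set K.fixingSubgroup) := by
    have e : (U' : Set K.fixingSubgroup) = (Subtype.val : K.fixingSubgroup → GF k) ⁻¹' (U : Set (GF k)) := by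
      ext σ
      exact hUU σ
    rw [e]
    exact hUo.preimage continuous_subtype_val
  haveI hfin : Finite (K.fixingSubgroup ⧸ U') := Subgroup.quotient_finite_of_isOpen U' hU'o
  suffices hkey : ∀ F : K.fixingSubgroup →* Multiplicative (ZMod p), (∀ σ ∈ U', F σ = 1) →
      (∀ σ ∈ (dec P).subgroupOf K.fixingSubgroup, F σ = 1) → ∀ σ, F σ = 1 by
    obtain ⟨δ, hδ, hδg⟩ := burn (p := p) hUn hfin hpg ((dec P).subgroupOf K.fixingSubgroup) hkey
      (⟨g, hg⟩ : K.fixingSubgroup)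
    exact ⟨δ, ⟨hδ, δ.2⟩, (hUU _).1 hδg⟩
  intro F hFU hFD
  -- the character
  let Ψ : GF k → ZMod p := fun x => if h : x ∈ K.fixingSubgroup then Multiplicative.toAdd (F ⟨x, h⟩) else 0
  have hΨv : ∀ x (h : x ∈ K.fixingSubgroup), Ψ x = Multiplicative.toAdd (F ⟨x, h⟩) := fun x h => dif_pos h
  have hΨ0 : ∀ x (h : x ∈ K.fixingSubgroup), F ⟨x, h⟩ = 1 → Ψ x = 0 := fun x h h' => by rw [hΨv x h, h']; rfl
  have hΨ : IsCh K.fixingSubgroup Ψ := by
    refine ⟨fun x hx y hy => ?_, U, hUo, fun x hx hxU => ?_⟩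
    · rw [hΨv x hx, hΨv y hy, hΨv _ (K.fixingSubgroup.mul_mem hx hy), ← toAdd_mul, ← map_mul]
      rfl
    · exact hΨ0 x hx (hFU _ ((hUU ⟨x, hx⟩).2 hxU))
  have hall : ∀ x ∈ K.fixingSubgroup, Ψ x = 0 := by
    refine hCHR k p hp K hinf hcl Ψ hΨ T hTf hT ?_ ?_
    · intro Q hQ hpQ hQT hQn τ hτ hτN
      exact hΨ0 _ hτN (hFU _ ((hUU ⟨τ, hτN⟩).2 (hram Q hQ hpQ hQT hQn τ hτ hτN)))
    · intro Q hQ hpQ τ hτ hτN
      obtain ⟨h, hh, hhQ⟩ := trans_fix K hP.isPrime hQ.isPrime (under_eq K h1 hP hQ hpP hpQ)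
      have h3 : h⁻¹ * τ * h ∈ dec P := dec_conj hhQ hτ
      have h4 : h⁻¹ * τ * h ∈ K.fixingSubgroup := K.fixingSubgroup.mul_mem (K.fixingSubgroup.mul_mem (K.fixingSubgroup.inv_mem hh) hτN) hh
      rw [← ch_conj hΨ hh hτN]
      exact hΨ0 _ h4 (hFD _ h3)
  intro σ
  have h5 := hall σ σ.2
  rw [hΨv σ σ.2] at h5
  exact Multiplicative.toAdd.injective h5

/-- Passage to the limit. -/
theorem lim_dec (K : IntermediateField k (AlgebraicClosure k)) (U : ℕ → Subgroup (GF k))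
    (hUo : ∀ m, IsOpen (U m : Set (GF k))) (hU : ∀ m, U (m + 1) ≤ U m) {P : Ideal (OO k)} {g : GF k}
    (h : ∀ m, ∃ δ ∈ dec P ⊓ K.fixingSubgroup, δ⁻¹ * g ∈ U m) :
    ∃ δ ∈ dec P ⊓ K.fixingSubgroup, ∀ m, δ⁻¹ * g ∈ U m := by
  have hcl1 : ∀ m, IsClosed (U m : Set (GF k)) := fun m => Subgroup.isClosed_of_isOpen _ (hUo m)
  have hIc : IsClosed ((dec P ⊓ K.fixingSubgroup : Subgroup (GF k)) : Set (GF k)) := by
    rw [Subgroup.coe_inf]
    exact (dec_isClosed P).inter (InfiniteGalois.fixingSubgroup_isClosed K)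
  have hcont : Continuous fun δ : GF k => δ⁻¹ * g := continuous_inv.mul continuous_const
  let t : ℕ → Set (GF k) := fun m =>
    ((dec P ⊓ K.fixingSubgroup : Subgroup (GF k)) : Set (GF k)) ∩ (fun δ => δ⁻¹ * g) ⁻¹' (U m : Set (GF k))
  have htc : ∀ m, IsClosed (t m) := fun m => hIc.inter ((hcl1 m).preimage hcont)
  obtain ⟨δ, hδ⟩ := IsCompact.nonempty_iInter_of_sequence_nonempty_isCompact_isClosed t
    (fun m => Set.inter_subset_inter_right _ (Set.preimage_mono fun x hx => hU m hx))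
    (fun m => by
      obtain ⟨δ, hδ, hδg⟩ := h m
      exact ⟨δ, hδ, hδg⟩) (htc 0).isCompact htc
  rw [Set.mem_iInter] at hδ
  exact ⟨δ, (hδ 0).1, fun m => (hδ m).2⟩

/-- **The images of the decomposition group at `p` and of the whole group coincide over `K`.** -/
theorem image_decK (hCHR : S_CHR) (K : IntermediateField k (AlgebraicClosure k)) [FiniteDimensional k K]
    [NumberField K] (hinf : p ≠ 2 ∨ IsTotallyComplex K) (h1 : OnePrime K p) (hcl : ClassPrime p K)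
    {T : Set (Ideal (𝓞 K))} (hTf : T.Finite) (hT : IndepP p K T)
    (hA : IsAdic (maximalIdeal A)) (h2 : (p : A) ∈ maximalIdeal A)
    {ρ : GF k →* GL (Fin n) A} (hρ : ∀ i j, Continuous fun σ => (ρ σ : Matrix (Fin n) (Fin n) A) i j)
    (hres : ∀ σ ∈ K.fixingSubgroup, ∃ M : ℕ, InI (maximalIdeal A) (((ρ σ : Matrix (Fin n) (Fin n) A) - 1) ^ M))
    (hram : ∀ Q : Ideal (OO k), Q.IsMaximal → (p : OO k) ∉ Q → Q.under (𝓞 K) ∉ T →
      p ∣ Ideal.absNorm (Q.under (𝓞 K)) - 1 → ∀ σ ∈ inertia Q, σ ∈ K.fixingSubgroup → ρ σ = 1)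
    {P : Ideal (OO k)} (hP : P.IsMaximal) (hpP : (p : OO k) ∈ P) {g : GF k}
    (hg : g ∈ K.fixingSubgroup) : ∃ δ ∈ dec P ⊓ K.fixingSubgroup, ρ δ = ρ g := by
  let ρN : K.fixingSubgroup →* GL (Fin n) A := ρ.comp K.fixingSubgroup.subtype
  have hcg : ∀ m, ∀ σ : K.fixingSubgroup, σ ∈ cong ρN m ↔ (σ : GF k) ∈ cong ρ m := fun m σ => by
    rw [mem_cong, mem_cong]; rfl
  obtain ⟨δ, hδ, hδg⟩ := lim_dec K (fun m => cong ρ m) (fun m => cong_open hA hρ m)
    (fun m x hx => mem_cong.2 ((mem_cong.1 hx).mono (Ideal.pow_le_pow_right (Nat.le_succ m))))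
    (P := P) (g := g) (fun m => dense_dec hCHR K hinf h1 hcl hTf hT (cong ρ m) (cong_open hA hρ m) (cong ρN m)
      (hcg m) (cong_normal ρN m) (cong_pgroup h2 ρN (fun σ => hres σ σ.2) m (cong_normal ρN m))
      (fun Q hQ hpQ hQT hQn σ hσ hσK => by
        rw [mem_cong, hram Q hQ hpQ hQT hQn σ hσ hσK, Units.val_one, sub_self]
        exact fun i j => Ideal.zero_mem _) hP hpP hg)
  refine ⟨δ, hδ, ?_⟩
  have h3 := eq_one_of_cong (ρ := ρ) hδg
  rw [map_mul, map_inv, inv_mul_eq_one] at h3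
  exact h3

/-- **The projective images of the decomposition group at `p` and of the whole group coincide over `K`.** -/
theorem image_decK_proj (hCHR : S_CHR) (K : IntermediateField k (AlgebraicClosure k)) [FiniteDimensional k K]
    [NumberField K] (hinf : p ≠ 2 ∨ IsTotallyComplex K) (h1 : OnePrime K p) (hcl : ClassPrime p K)
    {T : Set (Ideal (𝓞 K))} (hTf : T.Finite) (hT : IndepP p K T)
    (hA : IsAdic (maximalIdeal A)) (h2 : (p : A) ∈ maximalIdeal A)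
    {ρ : GF k →* GL (Fin n) A} (hρ : ∀ i j, Continuous fun σ => (ρ σ : Matrix (Fin n) (Fin n) A) i j)
    (hres : ∀ σ ∈ K.fixingSubgroup, ∃ (a : Aˣ) (M : ℕ), InI (maximalIdeal A)
      (((ρ σ : Matrix (Fin n) (Fin n) A) - (a : A) • (1 : Matrix (Fin n) (Fin n) A)) ^ M))
    (hram : ∀ Q : Ideal (OO k), Q.IsMaximal → (p : OO k) ∉ Q → Q.under (𝓞 K) ∉ T →
      p ∣ Ideal.absNorm (Q.under (𝓞 K)) - 1 → ∀ σ ∈ inertia Q, σ ∈ K.fixingSubgroup →
      ∃ c : A, (ρ σ : Matrix (Fin n) (Fin n) A) = c • (1 : Matrix (Fin n) (Fin n) A))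
    {P : Ideal (OO k)} (hP : P.IsMaximal) (hpP : (p : OO k) ∈ P) {g : GF k}
    (hg : g ∈ K.fixingSubgroup) : ∃ δ ∈ dec P ⊓ K.fixingSubgroup, ∃ c : A,
      (ρ g : Matrix (Fin n) (Fin n) A) = c • (ρ δ : Matrix (Fin n) (Fin n) A) := by
  let ρN : K.fixingSubgroup →* GL (Fin n) A := ρ.comp K.fixingSubgroup.subtype
  have hcg : ∀ m, ∀ σ : K.fixingSubgroup, σ ∈ pcong ρN m ↔ (σ : GF k) ∈ pcong ρ m := fun m σ => by
    rw [mem_pcong, mem_pcong]; rfl
  have hop : ∀ m, IsOpen (pcong ρ m : Set (GF k)) := fun m =>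
    Subgroup.isOpen_mono (cong_le_pcong ρ m) (cong_open hA hρ m)
  obtain ⟨δ, hδ, hδg⟩ := lim_dec K (fun m => pcong ρ m) hop
    (fun m x hx X => (hx X).mono (Ideal.pow_le_pow_right (Nat.le_succ m)))
    (P := P) (g := g) (fun m => dense_dec hCHR K hinf h1 hcl hTf hT (pcong ρ m) (hop m) (pcong ρN m)
      (hcg m) (pcong_normal ρN m) (pcong_pgroup h2 ρN (fun σ => hres σ σ.2) m (pcong_normal ρN m))
      (fun Q hQ hpQ hQT hQn σ hσ hσK => by
        obtain ⟨c, hc⟩ := hram Q hQ hpQ hQT hQn σ hσ hσK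
        exact pcong_of_scalar hc m) hP hpP hg)
  refine ⟨δ, hδ, ?_⟩
  obtain ⟨c, hc⟩ := scalar_of_pcong (ρ := ρ) hδg
  refine ⟨c, ?_⟩
  have h3 : g = δ * (δ⁻¹ * g) := by group
  conv_lhs => rw [h3]
  rw [map_mul, Units.val_mul, hc, mul_smul_comm, mul_one]

/-- **The image of the decomposition group at `p` is everything.** -/
theorem image_decG (K : IntermediateField k (AlgebraicClosure k)) [NumberField K] (h1 : OnePrime K p)
    {ρ : GF k →* GL (Fin n) A} {P : Ideal (OO k)} (hP : P.IsMaximal) (hpP : (p : OO k) ∈ P)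
    (hI : ∀ g ∈ K.fixingSubgroup, ∃ δ ∈ dec P ⊓ K.fixingSubgroup, ρ δ = ρ g) (σ : GF k) :
    ∃ δ ∈ dec P, ρ δ = ρ σ := by
  obtain ⟨g, hg, h3⟩ := split_dec K h1 hP hpP σ
  obtain ⟨δ, hδ, hδg⟩ := hI g hg
  refine ⟨δ * (g⁻¹ * σ), (dec P).mul_mem hδ.1 h3, ?_⟩
  rw [map_mul, hδg, ← map_mul, mul_inv_cancel_left]

/-- **The projective image of the decomposition group at `p` is everything.** -/
theorem image_decG_proj (K : IntermediateField k (AlgebraicClosure k)) [NumberField K] (h1 : OnePrime K p)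
    {ρ : GF k →* GL (Fin n) A} {P : Ideal (OO k)} (hP : P.IsMaximal) (hpP : (p : OO k) ∈ P)
    (hI : ∀ g ∈ K.fixingSubgroup, ∃ δ ∈ dec P ⊓ K.fixingSubgroup, ∃ c : A,
      (ρ g : Matrix (Fin n) (Fin n) A) = c • (ρ δ : Matrix (Fin n) (Fin n) A)) (σ : GF k) :
    ∃ δ ∈ dec P, ∃ c : A, (ρ σ : Matrix (Fin n) (Fin n) A) = c • (ρ δ : Matrix (Fin n) (Fin n) A) := by
  obtain ⟨g, hg, h3⟩ := split_dec K h1 hP hpP σ
  obtain ⟨δ, hδ, c, hδg⟩ := hI g hg
  refine ⟨δ * (g⁻¹ * σ), (dec P).mul_mem hδ.1 h3, c, ?_⟩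
  have h4 : σ = g * (g⁻¹ * σ) := by group
  conv_lhs => rw [h4]
  rw [map_mul, Units.val_mul, hδg, smul_mul_assoc, ← Units.val_mul, ← map_mul]

end

end Pool.Agent.V5helper56.DU
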