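import Pool.Agent.V5helper56.LI.Img

/-!
# The field of rational numbers
-/

set_option autoImplicit false
set_option linter.style.haveILetI false
set_option linter.unusedSectionVars false
set_option linter.unusedVariables false

namespace Pool.Agent.V5helper56.DU

open NumberField

/-- The ring of integers of the field `ℚ` as a subfield of an algebraic closure. -/
theorem int_surj (x : 𝓞 (⊥ : IntermediateField ℚ (AlgebraicClosure ℚ))) : ∃ z : ℤ, (z : 𝓞 (⊥ : IntermediateField ℚ (AlgebraicClosure ℚ))) = x := by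
  obtain ⟨q, hq⟩ := IntermediateField.mem_bot.1 (x : (⊥ : IntermediateField ℚ (AlgebraicClosure ℚ))).2
  have h1 : IsIntegral ℤ ((x : (⊥ : IntermediateField ℚ (AlgebraicClosure ℚ))) : AlgebraicClosure ℚ) :=
    (x.2 : IsIntegral ℤ (x : (⊥ : IntermediateField ℚ (AlgebraicClosure ℚ)))).map
      ((⊥ : IntermediateField ℚ (AlgebraicClosure ℚ)).val.restrictScalars ℤ)
  rw [← hq] at h1
  have h2 : IsIntegral ℤ q := (isIntegral_algebraMap_iff (algebraMap ℚ (AlgebraicClosure ℚ)).injective).1 h1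
  obtain ⟨z, hz⟩ := IsIntegrallyClosed.isIntegral_iff.1 h2
  refine ⟨z, ?_⟩
  apply RingOfIntegers.ext
  apply Subtype.ext
  rw [← hq, ← hz]
  simp

theorem dvd_of_mem {q : ℕ} (hq : q.Prime) {𝔮 : Ideal (𝓞 (⊥ : IntermediateField ℚ (AlgebraicClosure ℚ)))}
    (h𝔮 : 𝔮 ≠ ⊤) (hq𝔮 : (q : 𝓞 (⊥ : IntermediateField ℚ (AlgebraicClosure ℚ))) ∈ 𝔮) {z : ℤ}
    (hz : (z : 𝓞 (⊥ : IntermediateField ℚ (AlgebraicClosure ℚ))) ∈ 𝔮) : (q : ℤ) ∣ z := by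
  by_contra hcon
  obtain ⟨a, b, hab⟩ := (Nat.prime_iff_prime_int.1 hq).coprime_iff_not_dvd.2 hcon
  apply h𝔮
  rw [Ideal.eq_top_iff_one]
  have h1 := congrArg (Int.cast : ℤ → 𝓞 (⊥ : IntermediateField ℚ (AlgebraicClosure ℚ))) hab
  rw [Int.cast_add, Int.cast_mul, Int.cast_mul, Int.cast_natCast, Int.cast_one] at h1
  rw [← h1]
  exact 𝔮.add_mem (𝔮.mul_mem_left _ hq𝔮) (𝔮.mul_mem_left _ hz)

theorem eq_span {q : ℕ} (hq : q.Prime) {𝔮 : Ideal (𝓞 (⊥ : IntermediateField ℚ (AlgebraicClosure ℚ)))}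
    (h𝔮 : 𝔮 ≠ ⊤) (hq𝔮 : (q : 𝓞 (⊥ : IntermediateField ℚ (AlgebraicClosure ℚ))) ∈ 𝔮) :
    𝔮 = Ideal.span {(q : 𝓞 (⊥ : IntermediateField ℚ (AlgebraicClosure ℚ)))} := by
  refine le_antisymm (fun x hx => ?_) ((Ideal.span_singleton_le_iff_mem _).2 hq𝔮)
  obtain ⟨z, rfl⟩ := int_surj x
  obtain ⟨w, hw⟩ := dvd_of_mem hq h𝔮 hq𝔮 hx
  rw [Ideal.mem_span_singleton]
  refine ⟨(w : 𝓞 (⊥ : IntermediateField ℚ (AlgebraicClosure ℚ))), ?_⟩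
  rw [hw, Int.cast_mul, Int.cast_natCast]

variable {p : ℕ} [hp : Fact p.Prime] {l : ℕ}

theorem rat_good (hl : l.Prime) (hpl : ∀ x : ZMod l, x ^ p ≠ (p : ZMod l)) :
    (∀ 𝔭 𝔮 : Ideal (𝓞 (⊥ : IntermediateField ℚ (AlgebraicClosure ℚ))), 𝔭.IsPrime → 𝔮.IsPrime →
      (p : 𝓞 (⊥ : IntermediateField ℚ (AlgebraicClosure ℚ))) ∈ 𝔭 →
      (p : 𝓞 (⊥ : IntermediateField ℚ (AlgebraicClosure ℚ))) ∈ 𝔮 → 𝔭 = 𝔮) ∧
    (∀ I : Ideal (𝓞 (⊥ : IntermediateField ℚ (AlgebraicClosure ℚ))), I ≠ ⊥ →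
      ∃ (n m : ℕ) (a : 𝓞 (⊥ : IntermediateField ℚ (AlgebraicClosure ℚ)))
        (J : Ideal (𝓞 (⊥ : IntermediateField ℚ (AlgebraicClosure ℚ)))), ¬ p ∣ n ∧
        J ∣ Ideal.span {(p : 𝓞 (⊥ : IntermediateField ℚ (AlgebraicClosure ℚ)))} ^ m ∧
        Ideal.span {a} = I ^ n * J) ∧
    {𝔮 : Ideal (𝓞 (⊥ : IntermediateField ℚ (AlgebraicClosure ℚ))) | 𝔮.IsMaximal ∧
      (l : 𝓞 (⊥ : IntermediateField ℚ (AlgebraicClosure ℚ))) ∈ 𝔮}.Finite ∧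
    (∀ 𝔮 : Ideal (𝓞 (⊥ : IntermediateField ℚ (AlgebraicClosure ℚ))), 𝔮.IsMaximal →
      (l : 𝓞 (⊥ : IntermediateField ℚ (AlgebraicClosure ℚ))) ∈ 𝔮 →
      (p : 𝓞 (⊥ : IntermediateField ℚ (AlgebraicClosure ℚ))) ∉ 𝔮) ∧
    ∀ 𝔮 : Ideal (𝓞 (⊥ : IntermediateField ℚ (AlgebraicClosure ℚ))), 𝔮.IsMaximal →
      (l : 𝓞 (⊥ : IntermediateField ℚ (AlgebraicClosure ℚ))) ∈ 𝔮 →
      (∀ z : 𝓞 (⊥ : IntermediateField ℚ (AlgebraicClosure ℚ)), (p : 𝓞 (⊥ : IntermediateField ℚ (AlgebraicClosure ℚ))) - z ^ p ∉ 𝔮) ∧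
      ∀ 𝔮' : Ideal (𝓞 (⊥ : IntermediateField ℚ (AlgebraicClosure ℚ))), 𝔮'.IsMaximal →
        (l : 𝓞 (⊥ : IntermediateField ℚ (AlgebraicClosure ℚ))) ∈ 𝔮' → 𝔮' = 𝔮 := by
  have huniq : ∀ 𝔮 : Ideal (𝓞 (⊥ : IntermediateField ℚ (AlgebraicClosure ℚ))), 𝔮.IsMaximal →
      (l : 𝓞 (⊥ : IntermediateField ℚ (AlgebraicClosure ℚ))) ∈ 𝔮 →
      𝔮 = Ideal.span {(l : 𝓞 (⊥ : IntermediateField ℚ (AlgebraicClosure ℚ)))} := fun 𝔮 h h' =>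
    eq_span hl h.ne_top h'
  refine ⟨fun 𝔭 𝔮 h𝔭 h𝔮 hp𝔭 hp𝔮 => (eq_span hp.out h𝔭.ne_top hp𝔭).trans
    (eq_span hp.out h𝔮.ne_top hp𝔮).symm, fun I hI => ?_, ?_, fun 𝔮 h𝔮 hl𝔮 hp𝔮 => ?_,
    fun 𝔮 h𝔮 hl𝔮 => ⟨fun z hz => ?_, fun 𝔮' h𝔮' hl𝔮' => (huniq 𝔮' h𝔮' hl𝔮').trans (huniq 𝔮 h𝔮 hl𝔮).symm⟩⟩
  · obtain ⟨a, ha⟩ := (IsPrincipalIdealRing.principal (I.comap (Int.castRingHom
      (𝓞 (⊥ : IntermediateField ℚ (AlgebraicClosure ℚ)))))).principal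
    refine ⟨1, 0, (a : 𝓞 (⊥ : IntermediateField ℚ (AlgebraicClosure ℚ))), 1, hp.out.not_dvd_one, one_dvd _, ?_⟩
    rw [pow_one, mul_one]
    refine le_antisymm ((Ideal.span_singleton_le_iff_mem _).2 ?_) fun x hx => ?_
    · have h1 : a ∈ I.comap (Int.castRingHom (𝓞 (⊥ : IntermediateField ℚ (AlgebraicClosure ℚ)))) := by
        rw [ha]; exact Submodule.mem_span_singleton_self a
      exact h1
    · obtain ⟨z, rfl⟩ := int_surj x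
      have h1 : z ∈ I.comap (Int.castRingHom (𝓞 (⊥ : IntermediateField ℚ (AlgebraicClosure ℚ)))) := hx
      rw [ha] at h1
      obtain ⟨w, hw⟩ := Submodule.mem_span_singleton.1 h1
      rw [Ideal.mem_span_singleton]
      refine ⟨(w : 𝓞 (⊥ : IntermediateField ℚ (AlgebraicClosure ℚ))), ?_⟩
      rw [← hw, smul_eq_mul, Int.cast_mul, mul_comm]
  · exact Set.Subsingleton.finite fun 𝔮 h 𝔮' h' => (huniq 𝔮 h.1 h.2).trans (huniq 𝔮' h'.1 h'.2).symm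
  · have h1 : (l : ℤ) ∣ (p : ℤ) := dvd_of_mem hl h𝔮.ne_top hl𝔮 (by rw [Int.cast_natCast]; exact hp𝔮)
    apply hpl 0
    rw [zero_pow hp.out.ne_zero]
    exact ((ZMod.natCast_eq_zero_iff p l).2 (Int.natCast_dvd_natCast.1 h1)).symm
  · obtain ⟨w, rfl⟩ := int_surj z
    have h1 : (l : ℤ) ∣ (p : ℤ) - w ^ p := dvd_of_mem hl h𝔮.ne_top hl𝔮 (by
      rw [Int.cast_sub, Int.cast_natCast, Int.cast_pow]; exact hz)
    apply hpl (w : ZMod l)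
    have h2 := (ZMod.intCast_zmod_eq_zero_iff_dvd _ l).2 h1
    rw [Int.cast_sub, Int.cast_natCast, Int.cast_pow, sub_eq_zero] at h2
    exact h2.symm

end Pool.Agent.V5helper56.DU
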