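import Pool.Agent.V5helper4.DU.CNT
import Pool.Agent.V5helper17.DU.FIN
import Pool.Agent.V5helper31.DU.H90
import Pool.Agent.V5helper31.DU.INV
import Pool.Agent.V5helper11.DU.KER
import Pool.Agent.V5helper7.DU.NOO
import Pool.Agent.V5helper76.DU.NRM
import Pool.Agent.V5helper31.DU.RNG
import Pool.Agent.V5helper11.DU.SPL
import Pool.Agent.V5helper4.DU.SUB
import Pool.Agent.V5helper68.DU.VAL
import Pool.Agent.V5helper56.DU.Rat
import Pool.Agent.V5helper56.DU.Img

/-!
# Characters which are trivial on the decomposition groups at `p`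
-/

set_option autoImplicit false

namespace Pool.Agent.V5helper56.DU

/-- Characters of order `p` which are trivial on the decomposition groups at `p` and ramified at most at
independent tame primes are trivial. -/
theorem chr : S_CHR :=
  t_CHR (Pool.Agent.V5helper7.DU.t_NOO (Pool.Agent.V5helper17.DU.t_FIN Pool.Agent.V5helper68.DU.t_VAL)
    Pool.Agent.V5helper11.DU.t_KER Pool.Agent.V5helper11.DU.t_SPL
    (Pool.Agent.V5helper4.DU.t_CNT Pool.Agent.V5helper31.DU.t_H90
      (Pool.Agent.V5helper31.DU.t_RNG Pool.Agent.V5helper31.DU.t_INV))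
    Pool.Agent.V5helper4.DU.t_SUB Pool.Agent.V5helper76.DU.t_NRM)

end Pool.Agent.V5helper56.DU
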