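import Pool.Agent.V5helper56.DU.Tow

/-!
# Everywhere unramified representations
-/

set_option autoImplicit false
set_option linter.style.haveILetI false
set_option linter.unusedSectionVars false
set_option linter.unusedVariables false

namespace Pool.Agent.V5helper56.DU

open NumberField IsLocalRing Matrix Pool.Agent.Z384 Pool.Agent.W569.FM Pool.Agent.W571.FM
open Pool.Agent.R417.FK Pool.Agent.Helper832_EG Pool.Agent.V5helper56.LI

section
variable {A : Type} [CommRing A] [IsLocalRing A] [IsNoetherianRing A] {n : ℕ} {G : Type} [Group G]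

lemma one_of_cong {ρ : G →* GL (Fin n) A} {x : G} (h : ∀ m, x ∈ cong ρ m) : ρ x = 1 := by
  apply Units.ext
  ext i j
  have h1 : (ρ x : Matrix (Fin n) (Fin n) A) i j - (1 : Matrix (Fin n) (Fin n) A) i j ∈
      (⨅ m : ℕ, maximalIdeal A ^ m : Ideal A) := by
    rw [Ideal.mem_iInf]
    intro m
    exact mem_cong.1 (h m) i j
  rw [Ideal.iInf_pow_eq_bot_of_isLocalRing _ (Ideal.IsPrime.ne_top inferInstance), Ideal.mem_bot,
    sub_eq_zero] at h1
  rw [h1]; rfl

lemma cong_anti (ρ : G →* GL (Fin n) A) {i j : ℕ} (h : i ≤ j) : cong ρ j ≤ cong ρ i := fun x hx =>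
  mem_cong.2 ((mem_cong.1 hx).mono (Ideal.pow_le_pow_right h))

/-- A representation with bounded congruence quotients has finite image. -/
theorem finite_range (ρ : G →* GL (Fin n) A) (B : ℕ)
    (h : ∀ m, (cong ρ m).index ≠ 0 ∧ (cong ρ m).index ≤ B) : (Set.range ρ).Finite := by
  classical
  obtain ⟨m₀, hm₀⟩ : ∃ m₀, ∀ m, (cong ρ m).index ≤ (cong ρ m₀).index := by
    have h1 : (Set.range fun m => (cong ρ m).index).Finite :=
      (Set.finite_Iic B).subset (by rintro _ ⟨m, rfl⟩; exact (h m).2)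
    obtain ⟨_, ⟨m₀, rfl⟩, h2⟩ := Set.exists_max_image _ id h1 ⟨_, ⟨0, rfl⟩⟩
    exact ⟨m₀, fun m => h2 _ ⟨m, rfl⟩⟩
  have h3 : ∀ m, cong ρ m₀ ≤ cong ρ m := by
    intro m
    rcases le_total m m₀ with hm | hm
    · exact cong_anti ρ hm
    · have h4 : (cong ρ m).relIndex (cong ρ m₀) * (cong ρ m₀).index = (cong ρ m).index :=
        Subgroup.relIndex_mul_index (cong_anti ρ hm)
      have h5 := hm₀ m
      have h6 : (cong ρ m).relIndex (cong ρ m₀) = 1 := by
        have h7 := Nat.pos_of_ne_zero (h m₀).1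
        have h8 : (cong ρ m).relIndex (cong ρ m₀) ≠ 0 := by
          intro h9
          rw [h9, zero_mul] at h4
          exact (h m).1 h4.symm
        by_contra h9
        have h10 : 2 ≤ (cong ρ m).relIndex (cong ρ m₀) := by omega
        nlinarith
      exact Subgroup.relIndex_eq_one.1 h6
  have h4 : cong ρ m₀ ≤ ρ.ker := fun x hx => one_of_cong fun m => h3 m hx
  haveI : (cong ρ m₀).FiniteIndex := ⟨(h m₀).1⟩
  haveI : ρ.ker.FiniteIndex := Subgroup.finiteIndex_of_le h4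
  haveI : Finite (G ⧸ ρ.ker) := inferInstance
  haveI : Finite ρ.range := Finite.of_equiv _ (QuotientGroup.quotientKerEquivRange ρ).toEquiv
  have h5 : (Set.range ρ) = (ρ.range : Set (GL (Fin n) A)) := (MonoidHom.coe_range ρ).symm
  rw [h5]
  exact Set.toFinite _

end

section
variable {k : Type} [Field k] [NumberField k] {p : ℕ} [hp : Fact p.Prime]
variable {A : Type} [CommRing A] [IsLocalRing A] [IsNoetherianRing A] [TopologicalSpace A] {n : ℕ}

/-- **Everywhere unramified representations of subextensions have finite abelian image.** -/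
theorem rep_unr (hCHR : S_CHR) (K : IntermediateField k (AlgebraicClosure k)) [FiniteDimensional k K]
    [NumberField K] (hinf : p ≠ 2 ∨ IsTotallyComplex K) (h1 : OnePrime K p) (hcl : ¬ p ∣ classNumber K)
    {T : Set (Ideal (𝓞 K))} (hTf : T.Finite) (hT : IndepP p K T) {H E : Subgroup (GF k)}
    (hH : PExt p K T H) (hHE : H ≤ E) (hE : E ≤ K.fixingSubgroup)
    (hA : IsAdic (maximalIdeal A)) (h2 : (p : A) ∈ maximalIdeal A)
    (ρ : E →* GL (Fin n) A) (hρ : ∀ i j, Continuous fun σ => (ρ σ : Matrix (Fin n) (Fin n) A) i j)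
    (hres : ∀ σ, ∃ M : ℕ, InI (maximalIdeal A) (((ρ σ : Matrix (Fin n) (Fin n) A) - 1) ^ M))
    (hunr : ∀ Q : Ideal (OO k), Q.IsMaximal → ∀ σ : E, (σ : GF k) ∈ inertia Q → ρ σ = 1)
    {P : Ideal (OO k)} (hP : P.IsMaximal) (hpP : (p : OO k) ∈ P) :
    (Set.range ρ).Finite ∧ ∀ a b, ρ (a * b) = ρ (b * a) := by
  classical
  have hEo : IsOpen (E : Set (GF k)) := Subgroup.isOpen_mono hHE hH.opn
  have key : ∀ m, (cong ρ m).index ≠ 0 ∧
      (cong ρ m).index ≤ (H.relIndex K.fixingSubgroup) ^ (Nat.card T + 1) ∧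
      ∀ a b, a * b * a⁻¹ * b⁻¹ ∈ cong ρ m := by
    intro m
    set V : Subgroup (GF k) := (cong ρ m).map E.subtype with hV
    have hmem : ∀ σ : E, σ ∈ cong ρ m ↔ (σ : GF k) ∈ V := by
      intro σ
      constructor
      · intro h
        exact ⟨σ, h, rfl⟩
      · rintro ⟨τ, hτ, hτσ⟩
        rw [← Subtype.ext (show (τ : GF k) = σ from hτσ)]
        exact hτ
    have hVE : V ≤ E := Subgroup.map_subtype_le _
    have hsub : V.subgroupOf E = cong ρ m := by
      ext σ
      exact (hmem σ).symm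
    have hn := cong_normal ρ m
    obtain ⟨h3, h4, h5⟩ := tower hCHR K hinf h1 hcl hTf hT (H := H) (E := E) (V := V) hH hHE hE hVE
      (by
        have e : (V : Set (GF k)) = (Subtype.val : E → GF k) '' (cong ρ m : Set E) := rfl
        rw [e]
        exact hEo.isOpenMap_subtype_val _ (cong_open hA hρ m))
      (fun g hg σ hσ => by
        have h10 : (⟨σ, hVE hσ⟩ : E) ∈ cong ρ m := (hmem ⟨σ, hVE hσ⟩).2 hσ
        have h11 : (⟨g, hg⟩ : E) * (⟨σ, hVE hσ⟩ : E) * (⟨g, hg⟩ : E)⁻¹ ∈ cong ρ m :=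
          hn.conj_mem (⟨σ, hVE hσ⟩ : E) h10 (⟨g, hg⟩ : E)
        exact (hmem ((⟨g, hg⟩ : E) * (⟨σ, hVE hσ⟩ : E) * (⟨g, hg⟩ : E)⁻¹)).1 h11)
      (fun g hg => by
        obtain ⟨i, hi⟩ := cong_pgroup h2 ρ hres m hn (QuotientGroup.mk (⟨g, hg⟩ : E))
        rw [← QuotientGroup.mk_pow] at hi
        have h9 : (((⟨g, hg⟩ : E) ^ p ^ i : E) : GF k) = g ^ p ^ i := SubmonoidClass.coe_pow _ _
        refine ⟨i, ?_⟩
        rw [← h9]
        exact (hmem ((⟨g, hg⟩ : E) ^ p ^ i)).1 ((QuotientGroup.eq_one_iff _).1 hi))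
      (fun Q hQ σ hσ hσE => (hmem ⟨σ, hσE⟩).1 (mem_cong.2 (by
        rw [hunr Q hQ ⟨σ, hσE⟩ hσ, Units.val_one, sub_self]
        exact fun i j => Ideal.zero_mem _))) hP hpP
    have h6 : V.relIndex E = (cong ρ m).index := by
      rw [← hsub]; rfl
    rw [h6] at h3 h4
    exact ⟨h3, h4, fun a b => (hmem _).2 (h5 a a.2 b b.2)⟩
  refine ⟨finite_range ρ _ fun m => ⟨(key m).1, (key m).2.1⟩, fun a b => ?_⟩
  have h7 : ρ (a * b * a⁻¹ * b⁻¹) = 1 := one_of_cong fun m => (key m).2.2 a b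
  have h8 : a * b = (a * b * a⁻¹ * b⁻¹) * (b * a) := by group
  conv_lhs => rw [h8]
  rw [map_mul, h7, one_mul]

/-- **Potentially unramified representations have finite image.** -/
theorem rep_pot (hCHR : S_CHR) (K : IntermediateField k (AlgebraicClosure k)) [FiniteDimensional k K]
    [NumberField K] (hinf : p ≠ 2 ∨ IsTotallyComplex K) (h1 : OnePrime K p) (hcl : ¬ p ∣ classNumber K)
    {T : Set (Ideal (𝓞 K))} (hTf : T.Finite) (hT : IndepP p K T)
    (hA : IsAdic (maximalIdeal A)) (h2 : (p : A) ∈ maximalIdeal A)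
    (ρ : K.fixingSubgroup →* GL (Fin n) A)
    (hρ : ∀ i j, Continuous fun σ => (ρ σ : Matrix (Fin n) (Fin n) A) i j)
    (hres : ∀ σ, ∃ M : ℕ, InI (maximalIdeal A) (((ρ σ : Matrix (Fin n) (Fin n) A) - 1) ^ M))
    (hram : ∀ Q : Ideal (OO k), Q.IsMaximal → (p : OO k) ∉ Q → Q.under (𝓞 K) ∉ T →
      p ∣ Ideal.absNorm (Q.under (𝓞 K)) - 1 → ∀ σ : K.fixingSubgroup, (σ : GF k) ∈ inertia Q → ρ σ = 1)
    (H : Subgroup (GF k)) (hH : IsOpen (H : Set (GF k)))
    (hunr : ∀ Q : Ideal (OO k), Q.IsMaximal → ∀ σ : K.fixingSubgroup, (σ : GF k) ∈ inertia Q →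
      (σ : GF k) ∈ H → ρ σ = 1)
    {P : Ideal (OO k)} (hP : P.IsMaximal) (hpP : (p : OO k) ∈ P) :
    (Set.range ρ).Finite := by
  classical
  have hNc : IsClosed (K.fixingSubgroup : Set (GF k)) := InfiniteGalois.fixingSubgroup_isClosed K
  haveI : CompactSpace K.fixingSubgroup := isCompact_iff_compactSpace.1 hNc.isCompact
  have h7 : IsOpen ((H.subgroupOf K.fixingSubgroup : Subgroup K.fixingSubgroup) : Set K.fixingSubgroup) :=
    hH.preimage continuous_subtype_val
  haveI := Subgroup.quotient_finite_of_isOpen _ h7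
  have hone : ∀ m, ∀ σ : K.fixingSubgroup, ρ σ = 1 → σ ∈ cong ρ m := fun m σ h => mem_cong.2 (by
    rw [h, Units.val_one, sub_self]
    exact fun i j => Ideal.zero_mem _)
  refine finite_range ρ ((H.subgroupOf K.fixingSubgroup).index ^ (Nat.card T + 1)) fun m => ?_
  exact (bound_abs hCHR K hinf h1 hcl hTf hT (cong ρ m) (cong_open hA hρ m) (cong_normal ρ m)
    (cong_pgroup h2 ρ hres m (cong_normal ρ m))
    (fun Q hQ hpQ hQT hQn σ hσ => hone m σ (hram Q hQ hpQ hQT hQn σ hσ))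
    (H.subgroupOf K.fixingSubgroup) (by rw [Subgroup.index]; exact Nat.card_pos.ne')
    (fun Q hQ σ hσ hσH => hone m σ (hunr Q hQ σ hσ hσH)) hP hpP).2

end

end Pool.Agent.V5helper56.DU
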