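import Pool.Agent.V5helper56.LI.Img

/-!
# The decomposition group is commutative modulo the inertia group
-/

set_option autoImplicit false
set_option linter.style.haveILetI false
set_option linter.unusedSectionVars false
set_option linter.unusedVariables false

namespace Pool.Agent.V5helper56.DU

open NumberField Pool.Agent.W569.FM Pool.Agent.W571.FM Pool.Agent.Helper832_EG Pool.Agent.V5helper56.LI

theorem comm_hom {p : ℕ} [Fact p.Prime] {κ : Type} [Field κ] [Algebra (ZMod p) κ] {w : κ}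
    (hw : IsIntegral (ZMod p) w) (s t : κ →ₐ[ZMod p] κ) : s (t w) = t (s w) := by
  let E := IntermediateField.adjoin (ZMod p) {w}
  haveI : FiniteDimensional (ZMod p) E := IntermediateField.adjoin.finiteDimensional hw
  haveI : Finite E := Module.finite_of_finite (ZMod p)
  haveI : IsGalois (ZMod p) E := inferInstance
  have hwE : w ∈ E := IntermediateField.mem_adjoin_simple_self _ _
  let s' : Gal(E/ZMod p) := AlgHom.restrictNormal' s E
  let t' : Gal(E/ZMod p) := AlgHom.restrictNormal' t E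
  have hs : ∀ x : E, ((s' x : E) : κ) = s (x : κ) := fun x => AlgHom.restrictNormal_commutes s E x
  have ht : ∀ x : E, ((t' x : E) : κ) = t (x : κ) := fun x => AlgHom.restrictNormal_commutes t E x
  have hc : s' * t' = t' * s' := by
    obtain ⟨g, hg⟩ := IsCyclic.exists_generator (α := Gal(E/ZMod p))
    obtain ⟨i, hi⟩ := Subgroup.mem_zpowers_iff.1 (hg s')
    obtain ⟨j, hj⟩ := Subgroup.mem_zpowers_iff.1 (hg t')
    rw [← hi, ← hj, ← zpow_add, ← zpow_add, add_comm]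
  have h1 := congrArg (fun f : Gal(E/ZMod p) => ((f ⟨w, hwE⟩ : E) : κ)) hc
  have h2 : ((s' (t' ⟨w, hwE⟩) : E) : κ) = s (t w) := by rw [hs, ht]
  have h3 : ((t' (s' ⟨w, hwE⟩) : E) : κ) = t (s w) := by rw [ht, hs]
  rw [← h2, ← h3]
  exact h1

variable {k : Type} [Field k] [NumberField k] {p : ℕ} [hp : Fact p.Prime]

theorem comm_inertia {P : Ideal (OO k)} (hP : P.IsMaximal) (hpP : (p : OO k) ∈ P) {x y : GF k}
    (hx : x ∈ dec P) (hy : y ∈ dec P) : x * y * x⁻¹ * y⁻¹ ∈ inertia P := by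
  letI : Field (OO k ⧸ P) := Ideal.Quotient.field P
  have hp0 : ((p : ℕ) : OO k ⧸ P) = 0 := by
    rw [← map_natCast (Ideal.Quotient.mk P)]
    exact Ideal.Quotient.eq_zero_iff_mem.2 hpP
  haveI : CharP (OO k ⧸ P) p := by
    obtain ⟨q, hq⟩ := CharP.exists (OO k ⧸ P)
    have h1 : q ∣ p := (CharP.cast_eq_zero_iff (OO k ⧸ P) q p).1 hp0
    rcases (Nat.dvd_prime hp.out).1 h1 with h | h
    · exact absurd h (CharP.char_ne_one (OO k ⧸ P) q)
    · rw [← h]; exact hq
  letI : Algebra (ZMod p) (OO k ⧸ P) := ZMod.algebra (OO k ⧸ P) p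
  have hfr : ∀ σ ∈ dec P, ∃ s : (OO k ⧸ P) →ₐ[ZMod p] (OO k ⧸ P), ∀ z : OO k,
      s (Ideal.Quotient.mk P z) = Ideal.Quotient.mk P (σ • z) := by
    intro σ hσ
    let s0 : (OO k ⧸ P) →+* (OO k ⧸ P) := Ideal.quotientMap P (MulSemiringAction.toRingHom (GF k) (OO k) σ)
      (fun z hz => (hσ z).1 hz)
    refine ⟨{ s0 with commutes' := fun r => ?_ }, fun z => ?_⟩
    · have h1 : s0.comp (algebraMap (ZMod p) (OO k ⧸ P)) = algebraMap (ZMod p) (OO k ⧸ P) :=
        Subsingleton.elim _ _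
      exact congrArg (fun f : ZMod p →+* (OO k ⧸ P) => f r) h1
    · rfl
  obtain ⟨s, hs⟩ := hfr x hx
  obtain ⟨t, ht⟩ := hfr y hy
  intro z
  have h1 : Ideal.Quotient.mk P (x • y • (x⁻¹ * y⁻¹) • z) = Ideal.Quotient.mk P (y • x • (x⁻¹ * y⁻¹) • z) := by
    rw [← hs, ← ht, ← ht, ← hs]
    refine comm_hom ?_ s t
    have h2 : IsIntegral ℤ (Ideal.Quotient.mk P ((x⁻¹ * y⁻¹) • z)) :=
      (RingOfIntegers.isIntegral ((x⁻¹ * y⁻¹) • z)).map (Ideal.Quotient.mkₐ ℤ P)
    exact h2.tower_top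
  have h3 : (x * y * x⁻¹ * y⁻¹) • z = x • y • (x⁻¹ * y⁻¹) • z := by
    rw [mul_assoc (x * y), mul_smul, mul_smul]
  have h4 : y • x • (x⁻¹ * y⁻¹) • z = z := by
    rw [mul_smul x⁻¹, smul_inv_smul, smul_inv_smul]
  rw [h4, ← h3] at h1
  exact Ideal.Quotient.eq.1 h1

end Pool.Agent.V5helper56.DU
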