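import Pool.Agent.V5helper56.LI.Grp

/-!
# A bound for the order of finite quotients
-/

set_option autoImplicit false
set_option linter.style.haveILetI false
set_option linter.unusedSectionVars false
set_option linter.unusedVariables false

open scoped Pointwise

namespace Pool.Agent.V5helper56.DU

open Pool.Agent.V5helper56.LI

section
variable {Γ : Type} [Group Γ]

/-- The image of a subgroup `S` with `S ∩ H ⊆ U` has at most `[Γ : H]` elements. -/
theorem card_image {U : Subgroup Γ} [hUn : U.Normal] {S H : Subgroup Γ} (hH : H.index ≠ 0)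
    (hS : S ⊓ H ≤ U) : Nat.card (S.map (QuotientGroup.mk' U)) ≤ H.index := by
  classical
  haveI : Finite (Γ ⧸ H) := by
    haveI : H.FiniteIndex := ⟨hH⟩
    infer_instance
  have h1 : ∀ x : S.map (QuotientGroup.mk' U), ∃ a ∈ S, QuotientGroup.mk' U a = x := fun x => x.2
  choose a ha hax using h1
  have hinj : Function.Injective fun x : S.map (QuotientGroup.mk' U) => (QuotientGroup.mk (a x) : Γ ⧸ H) := by
    intro x y hxy
    have h2 : (a x)⁻¹ * a y ∈ H := QuotientGroup.eq.1 hxy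
    have h3 : (a x)⁻¹ * a y ∈ U := hS ⟨S.mul_mem (S.inv_mem (ha x)) (ha y), h2⟩
    apply Subtype.ext
    rw [← hax x, ← hax y]
    exact QuotientGroup.eq.2 h3
  exact Nat.card_le_card_of_injective _ hinj

theorem card_sup_le {G : Type} [Group G] [Finite G] (N H : Subgroup G) [hN : N.Normal] :
    Nat.card (N ⊔ H : Subgroup G) ≤ Nat.card N * Nat.card H := by
  have h1 : ∀ x : N × H, (x.1 : G) * x.2 ∈ N ⊔ H := fun x =>
    (N ⊔ H).mul_mem (Subgroup.mem_sup_left x.1.2) (Subgroup.mem_sup_right x.2.2)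
  have h2 : Function.Surjective fun x : N × H => (⟨(x.1 : G) * x.2, h1 x⟩ : (N ⊔ H : Subgroup G)) := by
    rintro ⟨y, hy⟩
    have hy' : y ∈ ((N ⊔ H : Subgroup G) : Set G) := hy
    rw [Subgroup.normal_mul] at hy'
    obtain ⟨n, hn, h, hh, rfl⟩ := hy'
    exact ⟨(⟨n, hn⟩, ⟨h, hh⟩), rfl⟩
  have h3 := Nat.card_le_card_of_surjective _ h2
  rwa [Nat.card_prod] at h3

theorem bound_grp {p : ℕ} [hp : Fact p.Prime] {U : Subgroup Γ} (hUn : U.Normal)
    (hUf : Finite (Γ ⧸ U)) (hU : IsPGroup p (Γ ⧸ U)) (D I H : Subgroup Γ) (hH : H.index ≠ 0)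
    (hcomm : ∀ x ∈ D, ∀ y ∈ D, x * y * x⁻¹ * y⁻¹ ∈ I) (hD : ∀ g, ∃ δ ∈ D, δ⁻¹ * g ∈ U)
    {ι : Type} [Fintype ι] (J : ι → Subgroup Γ) (hI : I ⊓ H ≤ U) (hJ : ∀ i, J i ⊓ H ≤ U)
    (hkey : ∀ F : Γ →* Multiplicative (ZMod p), (∀ σ ∈ U, F σ = 1) → (∀ σ ∈ I, F σ = 1) →
      (∀ i, ∀ σ ∈ J i, F σ = 1) → ∀ σ, F σ = 1) :
    Nat.card (Γ ⧸ U) ≤ H.index ^ (Fintype.card ι + 1) := by
  classical
  set π := QuotientGroup.mk' U with hπ
  have hsurj : ∀ x : Γ ⧸ U, ∃ δ ∈ D, π δ = x := by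
    intro x
    obtain ⟨g, rfl⟩ := QuotientGroup.mk'_surjective U x
    obtain ⟨δ, hδ, h⟩ := hD g
    exact ⟨δ, hδ, QuotientGroup.eq.2 h⟩
  have hc : ∀ x y : Γ ⧸ U, x * y * x⁻¹ * y⁻¹ ∈ I.map π := by
    intro x y
    obtain ⟨a, ha, rfl⟩ := hsurj x
    obtain ⟨b, hb, rfl⟩ := hsurj y
    exact ⟨_, hcomm a ha b hb, by rw [map_mul, map_mul, map_mul, map_inv, map_inv]⟩
  have hnorm : ∀ B : Subgroup (Γ ⧸ U), I.map π ≤ B → B.Normal := by
    intro B hB
    refine ⟨fun b hb g => ?_⟩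
    have h1 : g * b * g⁻¹ = (g * b * g⁻¹ * b⁻¹) * b := by group
    rw [h1]
    exact B.mul_mem (hB (hc g b)) hb
  have hbound : ∀ s : Finset ι, Nat.card (I.map π ⊔ s.sup (fun i => (J i).map π) : Subgroup (Γ ⧸ U)) ≤
      H.index ^ (s.card + 1) := by
    intro s
    induction s using Finset.induction_on with
    | empty =>
      rw [Finset.sup_empty, sup_bot_eq, Finset.card_empty, zero_add, pow_one]
      exact card_image hH hI
    | insert i s hi ih =>
      haveI := hnorm _ (le_sup_left : I.map π ≤ I.map π ⊔ s.sup (fun i => (J i).map π))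
      have h1 : I.map π ⊔ (insert i s).sup (fun i => (J i).map π) =
          (I.map π ⊔ s.sup (fun i => (J i).map π)) ⊔ (J i).map π := by
        rw [Finset.sup_insert, sup_comm ((J i).map π), sup_assoc]
      rw [h1, Finset.card_insert_of_notMem hi]
      calc _ ≤ _ := card_sup_le _ _
        _ ≤ H.index ^ (s.card + 1) * H.index := Nat.mul_le_mul ih (card_image hH (hJ i))
        _ = _ := by ring
  have htop : I.map π ⊔ (Finset.univ : Finset ι).sup (fun i => (J i).map π) = ⊤ := by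
    rw [eq_top_iff]
    rintro x -
    obtain ⟨g, rfl⟩ := QuotientGroup.mk'_surjective U x
    obtain ⟨δ, hδ, h⟩ := burn (p := p) hUn hUf hU (I ⊔ (Finset.univ : Finset ι).sup J) (fun F h1 h2 =>
      hkey F h1 (fun σ hσ => h2 σ (Subgroup.mem_sup_left hσ)) (fun i σ hσ =>
        h2 σ (Subgroup.mem_sup_right ((Finset.le_sup (f := J) (Finset.mem_univ i)) hσ)))) g
    have h3 : QuotientGroup.mk' U g = QuotientGroup.mk' U δ := (QuotientGroup.eq.2 h).symm
    rw [h3]
    have h4 : (I ⊔ (Finset.univ : Finset ι).sup J).map π ≤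
        I.map π ⊔ (Finset.univ : Finset ι).sup (fun i => (J i).map π) := by
      rw [Subgroup.map_sup]
      refine sup_le_sup le_rfl ?_
      rw [Subgroup.map_le_iff_le_comap]
      refine Finset.sup_le fun i hi => ?_
      rw [← Subgroup.map_le_iff_le_comap]
      exact Finset.le_sup (f := fun i => (J i).map π) hi
    exact h4 ⟨δ, hδ, rfl⟩
  have h5 := hbound Finset.univ
  rw [htop, Finset.card_univ, Nat.card_congr Subgroup.topEquiv.toEquiv] at h5
  exact h5

end

end Pool.Agent.V5helper56.DU
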