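import Pool.Agent.V5helper56.LI.Many

/-!
# Project DU: decomposition groups and `p`-units. Statements.

`PU p F` is the group of `p`-units of the number field `F`. `K ⊆ L` is a Galois extension of number
fields of prime degree `p` (`hcard`), with generator `σ` of the Galois group (`hσ`).
-/

set_option linter.style.haveILetI false
set_option linter.unusedSectionVars false
set_option linter.unusedVariables false

open NumberField Ideal Module IntermediateField Pool.Agent.W569.FM Pool.Agent.W571.FM Pool.Agent.R417.FK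
open Pool.Agent.Helper832_EG
open scoped Pointwise nonZeroDivisors

namespace Pool.Agent.V5helper56.DU

/-- The group of `p`-units. -/
def PU (p : ℕ) (F : Type) [Field F] : Subgroup Fˣ where
  carrier := {x | ∃ n : ℕ, IsIntegral ℤ ((p : F) ^ n * (x : F)) ∧
    IsIntegral ℤ ((p : F) ^ n * ((x⁻¹ : Fˣ) : F))}
  mul_mem' := by
    rintro x y ⟨n, hx, hx'⟩ ⟨m, hy, hy'⟩
    refine ⟨n + m, ?_, ?_⟩
    · have h := hx.mul hy
      rwa [show (p : F) ^ n * (x : F) * ((p : F) ^ m * (y : F)) = (p : F) ^ (n + m) * ((x * y : Fˣ) : F) by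
        rw [Units.val_mul]; ring] at h
    · have h := hx'.mul hy'
      rwa [show (p : F) ^ n * ((x⁻¹ : Fˣ) : F) * ((p : F) ^ m * ((y⁻¹ : Fˣ) : F)) =
        (p : F) ^ (n + m) * (((x * y)⁻¹ : Fˣ) : F) by rw [mul_inv, Units.val_mul]; ring] at h
  one_mem' := ⟨0, by simpa using isIntegral_one, by simpa using isIntegral_one⟩
  inv_mem' := by
    rintro x ⟨n, hx, hx'⟩
    exact ⟨n, hx', by rwa [inv_inv]⟩

lemma mem_PU {p : ℕ} {F : Type} [Field F] {x : Fˣ} : x ∈ PU p F ↔ ∃ n : ℕ,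
    IsIntegral ℤ ((p : F) ^ n * (x : F)) ∧ IsIntegral ℤ ((p : F) ^ n * ((x⁻¹ : Fˣ) : F)) := Iff.rfl

/-- The primes above `p`. -/
def Above (p : ℕ) (F : Type) [Field F] : Type := {P : Ideal (𝓞 F) // P.IsPrime ∧ (p : 𝓞 F) ∈ P}

section
variable {K L : Type} [Field K] [NumberField K] [Field L] [NumberField L] [Algebra K L] [IsGalois K L]

lemma smul_PU {p : ℕ} (σ : Gal(L/K)) {u : Lˣ} (hu : u ∈ PU p L) :
    Units.map ((σ : L →ₐ[K] L) : L →* L) u ∈ PU p L := by
  obtain ⟨n, h1, h2⟩ := hu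
  have h : ∀ x : L, IsIntegral ℤ ((p : L) ^ n * x) → IsIntegral ℤ ((p : L) ^ n * σ x) := by
    intro x hx
    have h3 := hx.map ((σ : L →ₐ[K] L).restrictScalars ℤ)
    have h4 : ((σ : L →ₐ[K] L).restrictScalars ℤ) ((p : L) ^ n * x) = (p : L) ^ n * σ x := by
      show σ ((p : L) ^ n * x) = _
      rw [map_mul, map_pow, map_natCast]
    rwa [h4] at h3
  refine ⟨n, h _ h1, ?_⟩
  have h3 := h _ h2
  rw [← map_inv]
  exact h3

/-- The action on `p`-units. -/
noncomputable def sP (p : ℕ) (σ : Gal(L/K)) : PU p L →* PU p L :=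
  ((Units.map ((σ : L →ₐ[K] L) : L →* L)).comp (PU p L).subtype).codRestrict (PU p L)
    (fun u => smul_PU σ u.2)

lemma sP_coe (p : ℕ) (σ : Gal(L/K)) (u : PU p L) : (((sP p σ u : PU p L) : Lˣ) : L) = σ ((u : Lˣ) : L) := rfl

lemma sP_iter (p : ℕ) (σ : Gal(L/K)) (n : ℕ) (u : PU p L) :
    ((((sP p σ)^[n] u : PU p L) : Lˣ) : L) = (σ ^ n) ((u : Lˣ) : L) := by
  induction n with
  | zero => simp
  | succ n ih => rw [Function.iterate_succ_apply', sP_coe, ih, pow_succ']; rfl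

/-- The map `u ↦ σ u / u`. -/
noncomputable def dP (p : ℕ) (σ : Gal(L/K)) : PU p L →* PU p L where
  toFun u := sP p σ u / u
  map_one' := by simp
  map_mul' a b := by rw [map_mul]; exact mul_div_mul_comm _ _ _ _

/-- The norm map. -/
noncomputable def nP (p : ℕ) (σ : Gal(L/K)) : PU p L →* PU p L where
  toFun u := ∏ i ∈ Finset.range p, (sP p σ)^[i] u
  map_one' := by
    refine Finset.prod_eq_one fun i _ => ?_
    have : ∀ i, (sP p σ)^[i] (1 : PU p L) = 1 := fun i => by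
      induction i with
      | zero => rfl
      | succ i ih => rw [Function.iterate_succ_apply', ih, map_one]
    exact this i
  map_mul' a b := by
    rw [← Finset.prod_mul_distrib]
    refine Finset.prod_congr rfl fun i _ => ?_
    have : ∀ i, (sP p σ)^[i] (a * b) = (sP p σ)^[i] a * (sP p σ)^[i] b := fun i => by
      induction i with
      | zero => rfl
      | succ i ih => rw [Function.iterate_succ_apply', ih, map_mul, Function.iterate_succ_apply',
          Function.iterate_succ_apply']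
    exact this i

lemma nP_coe (p : ℕ) (σ : Gal(L/K)) (u : PU p L) :
    (((nP p σ u : PU p L) : Lˣ) : L) = ∏ i ∈ Finset.range p, (σ ^ i) ((u : Lˣ) : L) := by
  show (((∏ i ∈ Finset.range p, (sP p σ)^[i] u : PU p L) : Lˣ) : L) = _
  rw [Subgroup.val_finset_prod, Units.coe_prod]
  exact Finset.prod_congr rfl fun i _ => sP_iter p σ i u

end

/-- The class number of `𝓞_K[1/p]` is prime to `p`. -/
def ClassPrime (p : ℕ) (K : Type) [Field K] : Prop :=
  ∀ I : Ideal (𝓞 K), I ≠ ⊥ → ∃ (n m : ℕ) (a : 𝓞 K) (J : Ideal (𝓞 K)), ¬ p ∣ n ∧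
    J ∣ Ideal.span {(p : 𝓞 K)} ^ m ∧ Ideal.span {a} = I ^ n * J

/-- Away from `p` the extension is ramified exactly at the `P i`, which are totally ramified. -/
structure RamAway (K L : Type) [Field K] [NumberField K] [Field L] [NumberField L] [Algebra K L]
    (p : ℕ) {ι : Type} (P : ι → Ideal (𝓞 L)) : Prop where
  max : ∀ i, (P i).IsMaximal
  away : ∀ i, (p : 𝓞 L) ∉ P i
  ram : ∀ i, (P i).ramificationIdx (𝓞 K) = p
  other : ∀ Q : Ideal (𝓞 L), Q.IsMaximal → (p : 𝓞 L) ∉ Q → (∀ i, Q ≠ P i) →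
    Q.ramificationIdx (𝓞 K) = 1

/-- All primes above `p` are completely split in the extension `L` of `K`. -/
def SplitAt (p : ℕ) (K L : Type) [Field K] [NumberField K] [Field L] [NumberField L] [Algebra K L]
    [IsGalois K L] : Prop :=
  ∀ P : Ideal (𝓞 L), P.IsPrime → (p : 𝓞 L) ∈ P → ∀ g : Gal(L/K), g • P = P → g = 1

/-- The `p`-unit `v` is a `p`-th power modulo the prime `Q` (not above `p`). -/
def IsPow (p : ℕ) {K : Type} [Field K] (Q : Ideal (𝓞 K)) (v : PU p K) : Prop :=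
  ∃ (n : ℕ) (x z : 𝓞 K), (x : K) = (p : K) ^ (p * n) * ((v : Kˣ) : K) ∧ x - z ^ p ∈ Q

/-- The primes in `T` are not above `p`, and for each of them some `p`-unit is a `p`-th power modulo
all other members of `T`, but not modulo this prime. -/
def IndepP (p : ℕ) (D : Type) [Field D] (T : Set (Ideal (𝓞 D))) : Prop :=
  ∀ 𝔭 ∈ T, 𝔭.IsMaximal ∧ (p : 𝓞 D) ∉ 𝔭 ∧ ∃ u : 𝓞 D, (∃ m : ℕ, u ∣ (p : 𝓞 D) ^ m) ∧
    (∀ z : 𝓞 D, u - z ^ p ∉ 𝔭) ∧ ∀ 𝔭' ∈ T, 𝔭' ≠ 𝔭 → ∃ z : 𝓞 D, u - z ^ p ∈ 𝔭'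

/-! ## The jobs -/

/-- **VAL.** Valuations of `p`-units: `v u P` is (with values in `Multiplicative ℤ`) the exponent of `P`
in the fractional ideal generated by `u`. For `u ∈ PU p F` choose `n` with `x = p^n u` integral; the
exponent is `multiplicity P (span {x}) - multiplicity P (span {p^n})` (or use `FractionalIdeal.count`).
If all exponents at the primes above `p` are `0`, then `span {x} = span {p ^ n}` (at primes not above
`p`, `x ∣ p ^ (2n)`), so `u` is a unit. For `P` above `p` let `h` be the class number; `P ^ h = span {g}`,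
`g ∣ p ^ h`, so `g` is a `p`-unit with exponents `h` at `P` and `0` elsewhere. -/
def S_VAL : Prop := ∀ (p : ℕ), p.Prime → ∀ (F : Type) [Field F] [NumberField F],
  Finite (Above p F) ∧ ∃ (v : PU p F →* (Above p F → Multiplicative ℤ)) (h : ℕ), 0 < h ∧
    (∀ u, v u = 1 ↔ ∃ w : (𝓞 F)ˣ, ((u : Fˣ) : F) = ((w : 𝓞 F) : F)) ∧
    ∀ P : Above p F, ∃ u : PU p F, v u P = Multiplicative.ofAdd (h : ℤ) ∧ ∀ P' ≠ P, v u P' = 1

/-- **FIN** (uses VAL). The kernel of `v` is isomorphic to `(𝓞 F)ˣ`, which is finitely generated of rank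
`card (InfinitePlace F) - 1` (`Units.finrank_eq`, `LI.rank_units`); the range of `v` is a subgroup of the
free group with basis `Above p F` which contains `h` times the free group, so its rank is
`Nat.card (Above p F)`. Use `Pool.Agent.TeamU.finrank_additive_ker_add_range`,
`finrank_additive_congr`, `finite_additive_subgroup` and so on. -/
def S_FIN : Prop := ∀ (p : ℕ), p.Prime → ∀ (F : Type) [Field F] [NumberField F],
  Module.Finite ℤ (Additive (PU p F)) ∧
    finrank ℤ (Additive (PU p F)) + 1 = Fintype.card (InfinitePlace F) + Nat.card (Above p F)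

/-- **KER.** The invariant `p`-units of `L` are the `p`-units of `K` (compare `mem_ker_dU`,
`finrank_ker_dU` in `Helper832_EG.PD5, PD6`). -/
def S_KER : Prop := ∀ (K L : Type) [Field K] [NumberField K] [Field L] [NumberField L] [Algebra K L]
  [IsGalois K L] (p : ℕ) (σ : Gal(L/K)), (∀ g : Gal(L/K), g ∈ Subgroup.zpowers σ) →
  (∀ u : PU p L, u ∈ (dP p σ).ker ↔ ∃ v : PU p K, algebraMap K L ((v : Kˣ) : K) = ((u : Lˣ) : L)) ∧
  finrank ℤ (Additive (dP p σ).ker) = finrank ℤ (Additive (PU p K))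

/-- **SPL.** The Galois group acts transitively on the primes of `L` above a prime of `K`, and freely on
those above `p` by `SplitAt`. -/
def S_SPL : Prop := ∀ (K L : Type) [Field K] [NumberField K] [Field L] [NumberField L] [Algebra K L]
  [IsGalois K L] (p : ℕ), p.Prime → SplitAt p K L →
  Nat.card (Above p L) = Nat.card Gal(L/K) * Nat.card (Above p K)

/-- **H90.** Hilbert 90 (compare `h90` in `Helper832_EG.PD5`, which is for units; here
`groupCohomology.exists_div_of_norm_eq_one` or the like, and multiply by an integer). -/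
def S_H90 : Prop := ∀ (K L : Type) [Field K] [NumberField K] [Field L] [NumberField L] [Algebra K L]
  [IsGalois K L] (p : ℕ), p.Prime → Nat.card Gal(L/K) = p → ∀ σ : Gal(L/K),
  (∀ g : Gal(L/K), g ∈ Subgroup.zpowers σ) → ∀ y ∈ (nP p σ).ker,
  ∃ b : 𝓞 L, b ≠ 0 ∧ σ (b : L) = ((y : Lˣ) : L) * b

/-- **INV.** Let `σ b = y b` with a `p`-unit `y`. Write `span {b} = I * J`, where `J` divides a power of
`p` and `I` is prime to `p` (strong induction on the norm, or `J = gcd (span {b}, p ^ N)`). If `p^n y`,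
`p^n y⁻¹` are integral, then `p^n σ(b) = (p^n y) b`, `(p^n y) ∣ p^(2n)`, so
`I ∣ p^n (σ • I) (σ • J)` and so `I ∣ σ • I`; the norms are equal, so `σ • I = I`, and `g • I = I` for all
`g`. -/
def S_INV : Prop := ∀ (K L : Type) [Field K] [NumberField K] [Field L] [NumberField L] [Algebra K L]
  [IsGalois K L] (p : ℕ), p.Prime → ∀ σ : Gal(L/K), (∀ g : Gal(L/K), g ∈ Subgroup.zpowers σ) →
  ∀ (b : 𝓞 L) (y : PU p L), b ≠ 0 → σ (b : L) = ((y : Lˣ) : L) * b →
  ∃ (I J : Ideal (𝓞 L)) (m : ℕ), Ideal.span {b} = I * J ∧ J ∣ Ideal.span {(p : 𝓞 L)} ^ m ∧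
    (∀ Q : Ideal (𝓞 L), Q.IsMaximal → (p : 𝓞 L) ∈ Q → ¬ Q ∣ I) ∧ (∀ g : Gal(L/K), g • I = I) ∧
    ∀ Q : Ideal (𝓞 L), Q.IsMaximal → (p : 𝓞 L) ∉ Q → multiplicity Q I = multiplicity Q (Ideal.span {b})

/-- **RNG** (uses INV). `I = 𝔞 𝓞_L` by `descent` (`Helper832_EG.PD4`; the multiplicities of `I` at the
primes above `p` are `0`), `𝔞 ^ n 𝔧 = (a)`, `𝔧 𝔧' = (p) ^ m'` by `ClassPrime`. So `a ∣ p ^ m' b ^ n` and
`b ^ n ∣ p ^ (m n) a`, and `w = b ^ n / a` is a `p`-unit with `σ w / w = y ^ n`. Modulo the range of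
`dP` the automorphism `σ` is trivial on `PU p L`, so `1 = nP y = y ^ p` there, and `n` is prime to `p`. -/
def S_RNG : Prop := ∀ (K L : Type) [Field K] [NumberField K] [Field L] [NumberField L] [Algebra K L]
  [IsGalois K L] (p : ℕ), p.Prime → ClassPrime p K → ∀ σ : Gal(L/K),
  (∀ g : Gal(L/K), g ∈ Subgroup.zpowers σ) → ∀ (b : 𝓞 L) (y : PU p L), y ∈ (nP p σ).ker → b ≠ 0 →
  σ (b : L) = ((y : Lˣ) : L) * b →
  (∀ Q : Ideal (𝓞 L), Q.IsMaximal → (p : 𝓞 L) ∉ Q →
    Q.ramificationIdx (𝓞 K) ∣ multiplicity Q (Ideal.span {b})) → y ∈ (dP p σ).range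

/-- **CNT** (uses H90, RNG). As `relIndex_le_many` in `V5helper56.LI.Many`, with `p`-units: copy that
proof. -/
def S_CNT : Prop := ∀ (K L : Type) [Field K] [NumberField K] [Field L] [NumberField L] [Algebra K L]
  [IsGalois K L] (p : ℕ), p.Prime → Nat.card Gal(L/K) = p → ClassPrime p K → ∀ σ : Gal(L/K),
  (∀ g : Gal(L/K), g ∈ Subgroup.zpowers σ) → ∀ (ι : Type) [Fintype ι] (P : ι → Ideal (𝓞 L)),
  RamAway K L p P → (dP p σ).range.relIndex (nP p σ).ker ≤ p ^ Fintype.card ι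

/-- **SUB.** The `p`-units which are `p`-th powers modulo `Q` form a subgroup (for the inverse: if
`x = p^(pn) v`, `x' = p^(pn') v⁻¹`, then `x x' = p^(p(n+n'))`, and `x ≡ z ^ p`, and `z` and `p` are
invertible modulo `Q`). -/
def S_SUB : Prop := ∀ (K : Type) [Field K] [NumberField K] (p : ℕ), p.Prime → ∀ Q : Ideal (𝓞 K),
  Q.IsMaximal → (p : 𝓞 K) ∉ Q → ∃ H : Subgroup (PU p K), ∀ v, v ∈ H ↔ IsPow p Q v

/-- **NRM.** As `norm_pow` in `Helper832_EG.PD10`, with `p`-units: if `x = p^n y` is integral, then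
`p^(pn) v` is the norm of `x`; by `res_surj` (`V5helper56.LI.Tame`) there is `z ∈ 𝓞_K` with `z ≡ x` modulo
`P`, and the norm of `x` is congruent to `x ^ p` (`iter_cong`). -/
def S_NRM : Prop := ∀ (K L : Type) [Field K] [NumberField K] [Field L] [NumberField L] [Algebra K L]
  [IsGalois K L] (p : ℕ), p.Prime → Nat.card Gal(L/K) = p → ∀ σ : Gal(L/K),
  (∀ g : Gal(L/K), g ∈ Subgroup.zpowers σ) → ∀ P : Ideal (𝓞 L), P.IsMaximal → (p : 𝓞 L) ∉ P →
  (∀ x : 𝓞 L, σ • x - x ∈ P) → ∀ (y : PU p L) (v : PU p K),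
  (((nP p σ y : PU p L) : Lˣ) : L) = algebraMap K L ((v : Kˣ) : K) → IsPow p (P.under (𝓞 K)) v

/-- **NOO** (uses FIN, KER, SPL, CNT, SUB, NRM). As `herbInf` (`V5helper56.LI.Inf`) and `no_many`
(`V5helper56.LI.Many`), with `p`-units: by FIN, KER, SPL and
`card (InfinitePlace L) = p * card (InfinitePlace K)` the hypothesis of `abs_herb`
(`Helper832_EG.PD3`) is satisfied for `s = sP`, `δ = dP`, `ν = nP`, so `p * [ker dP : range nP] ≤
[ker nP : range dP] ≤ p ^ card ι`; but the classes of `∏ u_i ^ a_i`, `0 ≤ a_i < p`, are different in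
`ker dP / range nP`. -/
def S_NOO : Prop := ∀ (K L : Type) [Field K] [NumberField K] [Field L] [NumberField L] [Algebra K L]
  [IsGalois K L] (p : ℕ), p.Prime → (p ≠ 2 ∨ IsTotallyComplex K) → Nat.card Gal(L/K) = p →
  ClassPrime p K → ∀ σ : Gal(L/K), (∀ g : Gal(L/K), g ∈ Subgroup.zpowers σ) →
  ∀ (ι : Type) [Fintype ι] (P : ι → Ideal (𝓞 L)), RamAway K L p P → SplitAt p K L →
  (∀ i, ∀ x : 𝓞 L, σ • x - x ∈ P i) → ∀ u : ι → 𝓞 K, (∀ i, ∃ m : ℕ, u i ∣ (p : 𝓞 K) ^ m) →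
  (∀ i, ∀ z : 𝓞 K, u i - z ^ p ∉ (P i).under (𝓞 K)) →
  (∀ i j, j ≠ i → ∃ z : 𝓞 K, u i - z ^ p ∈ (P j).under (𝓞 K)) → False

/-- **CHR** (uses NOO). -/
def S_CHR : Prop := ∀ (k : Type) [Field k] [NumberField k] (p : ℕ) (hp : Fact p.Prime)
  (D : IntermediateField k (AlgebraicClosure k)) [FiniteDimensional k D] [NumberField D],
  (p ≠ 2 ∨ IsTotallyComplex D) → ClassPrime p D → ∀ (Ψ : GF k → ZMod p), IsCh D.fixingSubgroup Ψ →
  ∀ T : Set (Ideal (𝓞 D)), T.Finite → IndepP p D T →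
  (∀ Q : Ideal (OO k), Q.IsMaximal → (p : OO k) ∉ Q → Q.under (𝓞 D) ∉ T →
    p ∣ Ideal.absNorm (Q.under (𝓞 D)) - 1 → ∀ τ ∈ inertia Q, τ ∈ D.fixingSubgroup → Ψ τ = 0) →
  (∀ Q : Ideal (OO k), Q.IsMaximal → (p : OO k) ∈ Q → ∀ τ : GF k, (∀ x : OO k, x ∈ Q ↔ τ • x ∈ Q) →
    τ ∈ D.fixingSubgroup → Ψ τ = 0) → ∀ x ∈ D.fixingSubgroup, Ψ x = 0

end Pool.Agent.V5helper56.DU
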