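import Pool.Agent.V5helper56.DU.Img
import Pool.Agent.V5helper56.DU.Fin
import Pool.Agent.V5helper56.DU.Com

/-!
# Everywhere unramified extensions
-/

set_option autoImplicit false
set_option linter.style.haveILetI false
set_option linter.unusedSectionVars false
set_option linter.unusedVariables false

namespace Pool.Agent.V5helper56.DU

open NumberField IsLocalRing Matrix Pool.Agent.Z384 Pool.Agent.W569.FM Pool.Agent.W571.FM
open Pool.Agent.R417.FK Pool.Agent.Helper832_EG Pool.Agent.V5helper56.LI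

section
variable {k : Type} [Field k] [NumberField k] {p : ℕ} [hp : Fact p.Prime]

theorem classPrime_of {K : Type} [Field K] [NumberField K] (hcl : ¬ p ∣ classNumber K) : ClassPrime p K := by
  intro I hI
  have hI0 : I ∈ nonZeroDivisors (Ideal (𝓞 K)) := mem_nonZeroDivisors_of_ne_zero hI
  have h1 : ClassGroup.mk0 (⟨I, hI0⟩ ^ classNumber K) = 1 := by
    rw [map_pow]
    exact pow_card_eq_one
  rw [ClassGroup.mk0_eq_one_iff] at h1
  obtain ⟨a, ha⟩ := h1.principal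
  refine ⟨classNumber K, 0, a, 1, hcl, one_dvd _, ?_⟩
  rw [mul_one]
  exact ha.symm

/-- Conjugates of elements of inertia groups. -/
theorem conj_in (K : IntermediateField k (AlgebraicClosure k)) [NumberField K] {Q : Ideal (OO k)} (hQ : Q.IsMaximal)
    {g σ : GF k} (hg : g ∈ K.fixingSubgroup) (hσ : σ ∈ inertia Q) : ∃ Q' : Ideal (OO k), Q'.IsMaximal ∧
      ((p : OO k) ∈ Q' ↔ (p : OO k) ∈ Q) ∧ Q'.under (𝓞 K) = Q.under (𝓞 K) ∧ g * σ * g⁻¹ ∈ inertia Q' := by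
  obtain ⟨Q', h1, h2, h3, h4⟩ := exists_conj_ideal Q g
  refine ⟨Q', h2 hQ, h3 p, ?_, ?_⟩
  · ext x
    rw [Ideal.mem_comap, Ideal.mem_comap, h1]
    have h5 : g⁻¹ • algebraMap (𝓞 K) (OO k) x = algebraMap (𝓞 K) (OO k) x := by
      apply RingOfIntegers.ext
      exact (K.mem_fixingSubgroup_iff g⁻¹).1 (K.fixingSubgroup.inv_mem hg) (x : K) (x : K).2
    rw [h5]
  · rw [h4]
    exact ⟨σ, hσ, rfl⟩

/-- **The bound for the order of quotients in which inertia groups are small.** -/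
theorem bound_abs (hCHR : S_CHR) (K : IntermediateField k (AlgebraicClosure k)) [FiniteDimensional k K]
    [NumberField K] (hinf : p ≠ 2 ∨ IsTotallyComplex K) (h1 : OnePrime K p) (hcl : ¬ p ∣ classNumber K)
    {T : Set (Ideal (𝓞 K))} (hTf : T.Finite) (hT : IndepP p K T)
    (U' : Subgroup K.fixingSubgroup) (hUo : IsOpen (U' : Set K.fixingSubgroup)) (hUn : U'.Normal)
    (hpg : IsPGroup p (K.fixingSubgroup ⧸ U'))
    (hram : ∀ Q : Ideal (OO k), Q.IsMaximal → (p : OO k) ∉ Q → Q.under (𝓞 K) ∉ T →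
      p ∣ Ideal.absNorm (Q.under (𝓞 K)) - 1 → ∀ σ : K.fixingSubgroup, (σ : GF k) ∈ inertia Q → σ ∈ U')
    (H : Subgroup K.fixingSubgroup) (hH : H.index ≠ 0)
    (hHU : ∀ Q : Ideal (OO k), Q.IsMaximal → ∀ σ : K.fixingSubgroup, (σ : GF k) ∈ inertia Q → σ ∈ H → σ ∈ U')
    {P : Ideal (OO k)} (hP : P.IsMaximal) (hpP : (p : OO k) ∈ P) :
    (∀ g : K.fixingSubgroup, ∃ δ : K.fixingSubgroup, (δ : GF k) ∈ dec P ∧ δ⁻¹ * g ∈ U') ∧
    U'.index ≠ 0 ∧ U'.index ≤ H.index ^ (Nat.card T + 1) := by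
  classical
  have hGo : IsOpen (K.fixingSubgroup : Set (GF k)) := IntermediateField.fixingSubgroup_isOpen K
  have hNc : IsClosed (K.fixingSubgroup : Set (GF k)) := InfiniteGalois.fixingSubgroup_isClosed K
  haveI : CompactSpace K.fixingSubgroup := isCompact_iff_compactSpace.1 hNc.isCompact
  haveI hfin : Finite (K.fixingSubgroup ⧸ U') := Subgroup.quotient_finite_of_isOpen U' hUo
  let U : Subgroup (GF k) := U'.map K.fixingSubgroup.subtype
  have hUU : ∀ σ : K.fixingSubgroup, σ ∈ U' ↔ (σ : GF k) ∈ U := by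
    intro σ
    constructor
    · intro h
      exact ⟨σ, h, rfl⟩
    · rintro ⟨τ, hτ, hτσ⟩
      rw [← Subtype.ext (show (τ : GF k) = σ from hτσ)]
      exact hτ
  have hUopen : IsOpen (U : Set (GF k)) := by
    have e : (U : Set (GF k)) = (Subtype.val : K.fixingSubgroup → GF k) '' (U' : Set K.fixingSubgroup) := rfl
    rw [e]
    exact hGo.isOpenMap_subtype_val _ hUo
  have hD : ∀ g : K.fixingSubgroup, ∃ δ ∈ (dec P).subgroupOf K.fixingSubgroup, δ⁻¹ * g ∈ U' := by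
    intro g
    obtain ⟨δ, hδ, hδg⟩ := dense_dec hCHR K hinf h1 (classPrime_of hcl) hTf hT U hUopen U' hUU hUn hpg
      (fun Q hQ hpQ hQT hQn σ hσ hσK => (hUU ⟨σ, hσK⟩).1 (hram Q hQ hpQ hQT hQn ⟨σ, hσK⟩ hσ)) hP hpP g.2
    exact ⟨⟨δ, hδ.2⟩, hδ.1, (hUU _).2 hδg⟩
  haveI : Finite T := hTf
  haveI : Fintype T := Fintype.ofFinite T
  have hex : ∀ 𝔮 : T, ∃ Q : Ideal (OO k), Q.IsMaximal ∧ Q.under (𝓞 K) = (𝔮 : Ideal (𝓞 K)) := by
    intro 𝔮
    haveI := (hT 𝔮.1 𝔮.2).1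
    haveI : Algebra.IsIntegral (𝓞 K) (OO k) := Algebra.IsIntegral.tower_top (R := ℤ)
    obtain ⟨Q, hQm, hQP⟩ := Ideal.exists_maximal_ideal_liesOver_of_isIntegral (S := OO k) (𝔮 : Ideal (𝓞 K))
    exact ⟨Q, hQm, hQP.over.symm⟩
  choose Q hQm hQu using hex
  have hb := bound_grp (p := p) hUn hfin hpg ((dec P).subgroupOf K.fixingSubgroup)
    ((inertia P).subgroupOf K.fixingSubgroup) H hH (fun x hx y hy => comm_inertia hP hpP hx hy) hD
    (fun 𝔮 : T => (inertia (Q 𝔮)).subgroupOf K.fixingSubgroup) (fun σ hσ => hHU P hP σ hσ.1 hσ.2)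
    (fun 𝔮 σ hσ => hHU (Q 𝔮) (hQm 𝔮) σ hσ.1 hσ.2) ?_
  · refine ⟨fun g => ?_, ?_, ?_⟩
    · obtain ⟨δ, hδ, h⟩ := hD g
      exact ⟨δ, hδ, h⟩
    · rw [Subgroup.index]
      exact Nat.card_pos.ne'
    · rw [Subgroup.index, Nat.card_eq_fintype_card (α := T)]
      exact hb
  intro F hFU hFI hFJ
  let Ψ : GF k → ZMod p := fun x => if h : x ∈ K.fixingSubgroup then Multiplicative.toAdd (F ⟨x, h⟩) else 0
  have hΨv : ∀ x (h : x ∈ K.fixingSubgroup), Ψ x = Multiplicative.toAdd (F ⟨x, h⟩) := fun x h => dif_pos h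
  have hΨ0 : ∀ x (h : x ∈ K.fixingSubgroup), F ⟨x, h⟩ = 1 → Ψ x = 0 := fun x h h' => by rw [hΨv x h, h']; rfl
  have hΨ : IsCh K.fixingSubgroup Ψ := by
    refine ⟨fun x hx y hy => ?_, U, hUopen, fun x hx hxU => ?_⟩
    · rw [hΨv x hx, hΨv y hy, hΨv _ (K.fixingSubgroup.mul_mem hx hy), ← toAdd_mul, ← map_mul]
      rfl
    · exact hΨ0 x hx (hFU _ ((hUU ⟨x, hx⟩).2 hxU))
  have hconj : ∀ {Q₁ Q₂ : Ideal (OO k)}, Q₁.IsMaximal → Q₂.IsMaximal → Q₁.under (𝓞 K) = Q₂.under (𝓞 K) →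
      (∀ σ : K.fixingSubgroup, (σ : GF k) ∈ inertia Q₁ → F σ = 1) → ∀ τ ∈ inertia Q₂, τ ∈ K.fixingSubgroup →
      Ψ τ = 0 := by
    intro Q₁ Q₂ hQ₁ hQ₂ hu hF τ hτ hτN
    obtain ⟨h, hh, hhQ⟩ := trans_fix K hQ₁.isPrime hQ₂.isPrime hu
    have h3 : h⁻¹ * τ * h ∈ inertia Q₁ := inertia_conj hhQ hτ
    have h4 : h⁻¹ * τ * h ∈ K.fixingSubgroup := K.fixingSubgroup.mul_mem (K.fixingSubgroup.mul_mem (K.fixingSubgroup.inv_mem hh) hτN) hh
    rw [← ch_conj hΨ hh hτN]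
    exact hΨ0 _ h4 (hF ⟨_, h4⟩ h3)
  have hall : ∀ x ∈ K.fixingSubgroup, Ψ x = 0 := by
    refine char_many K hinf hcl hΨ (T := ∅) Set.finite_empty (fun 𝔭 h => absurd h (Set.notMem_empty 𝔭)) ?_
    intro Q' hQ' _ hQn τ hτ hτN
    by_cases hpQ : (p : OO k) ∈ Q'
    · exact hconj hP hQ' (under_eq K h1 hP hQ' hpP hpQ) (fun σ hσ => hFI σ hσ) τ hτ hτN
    · by_cases hQT : Q'.under (𝓞 K) ∈ T
      · exact hconj (hQm ⟨_, hQT⟩) hQ' (hQu ⟨_, hQT⟩) (fun σ hσ => hFJ ⟨_, hQT⟩ σ hσ) τ hτ hτN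
      · exact hΨ0 _ hτN (hFU _ (hram Q' hQ' hpQ hQT (hQn hpQ) ⟨τ, hτN⟩ hτ))
  intro σ
  have h5 := hall σ σ.2
  rw [hΨv σ σ.2] at h5
  exact Multiplicative.toAdd.injective h5

/-- `H` is the absolute Galois group of a Galois extension of `K` of degree a power of `p`, which is
unramified at the primes not above `p` and not in `T` whose norm is `1` modulo `p`. -/
structure PExt (p : ℕ) (K : IntermediateField k (AlgebraicClosure k)) [NumberField K] (T : Set (Ideal (𝓞 K)))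
    (H : Subgroup (GF k)) : Prop where
  opn : IsOpen (H : Set (GF k))
  le : H ≤ K.fixingSubgroup
  conj : ∀ g ∈ K.fixingSubgroup, ∀ σ ∈ H, g * σ * g⁻¹ ∈ H
  pow : ∀ g ∈ K.fixingSubgroup, ∃ m : ℕ, g ^ p ^ m ∈ H
  unr : ∀ Q : Ideal (OO k), Q.IsMaximal → (p : OO k) ∉ Q → Q.under (𝓞 K) ∉ T →
    p ∣ Ideal.absNorm (Q.under (𝓞 K)) - 1 → ∀ σ ∈ inertia Q, σ ∈ K.fixingSubgroup → σ ∈ H

/-- **The everywhere unramified extensions of a subextension are abelian of bounded degree.** -/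
theorem tower (hCHR : S_CHR) (K : IntermediateField k (AlgebraicClosure k)) [FiniteDimensional k K]
    [NumberField K] (hinf : p ≠ 2 ∨ IsTotallyComplex K) (h1 : OnePrime K p) (hcl : ¬ p ∣ classNumber K)
    {T : Set (Ideal (𝓞 K))} (hTf : T.Finite) (hT : IndepP p K T) {H E V : Subgroup (GF k)}
    (hH : PExt p K T H) (hHE : H ≤ E) (hE : E ≤ K.fixingSubgroup)
    (hVE : V ≤ E) (hVo : IsOpen (V : Set (GF k))) (hVn : ∀ g ∈ E, ∀ σ ∈ V, g * σ * g⁻¹ ∈ V)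
    (hVp : ∀ g ∈ E, ∃ m : ℕ, g ^ p ^ m ∈ V)
    (hVi : ∀ Q : Ideal (OO k), Q.IsMaximal → ∀ σ ∈ inertia Q, σ ∈ E → σ ∈ V)
    {P : Ideal (OO k)} (hP : P.IsMaximal) (hpP : (p : OO k) ∈ P) :
    V.relIndex E ≠ 0 ∧ V.relIndex E ≤ (H.relIndex K.fixingSubgroup) ^ (Nat.card T + 1) ∧
      ∀ a ∈ E, ∀ b ∈ E, a * b * a⁻¹ * b⁻¹ ∈ V := by
  classical
  have hNc : IsClosed (K.fixingSubgroup : Set (GF k)) := InfiniteGalois.fixingSubgroup_isClosed K
  haveI : CompactSpace K.fixingSubgroup := isCompact_iff_compactSpace.1 hNc.isCompact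
  -- the group `E / V`
  have hEo : IsOpen (E : Set (GF k)) := Subgroup.isOpen_mono hVE hVo
  have hEc : IsClosed (E : Set (GF k)) := Subgroup.isClosed_of_isOpen _ hEo
  haveI : CompactSpace E := isCompact_iff_compactSpace.1 hEc.isCompact
  have hNn : (V.subgroupOf E).Normal := ⟨fun n hn g => hVn g g.2 n hn⟩
  have hNo : IsOpen ((V.subgroupOf E : Subgroup E) : Set E) := hVo.preimage continuous_subtype_val
  haveI hNf : Finite (E ⧸ V.subgroupOf E) := Subgroup.quotient_finite_of_isOpen _ hNo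
  have hNp : IsPGroup p (E ⧸ V.subgroupOf E) := by
    intro x
    obtain ⟨g, rfl⟩ := QuotientGroup.mk_surjective x
    obtain ⟨m, hm⟩ := hVp g g.2
    refine ⟨m, ?_⟩
    rw [← QuotientGroup.mk_pow]
    exact (QuotientGroup.eq_one_iff _).2 hm
  obtain ⟨m, hm⟩ := IsPGroup.iff_card.1 hNp
  have hpow : ∀ z ∈ E, z ^ p ^ m ∈ V := by
    intro z hz
    have h2 : (QuotientGroup.mk (⟨z, hz⟩ : E) : E ⧸ V.subgroupOf E) ^ p ^ m = 1 := by
      rw [← hm]
      exact pow_card_eq_one'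
    rw [← QuotientGroup.mk_pow] at h2
    have h3 : (⟨z, hz⟩ : E) ^ p ^ m ∈ V.subgroupOf E := (QuotientGroup.eq_one_iff _).1 h2
    exact h3
  -- the core
  set V' : Subgroup K.fixingSubgroup := (V ⊓ H).subgroupOf K.fixingSubgroup with hV'
  have hV'o : IsOpen (V' : Set K.fixingSubgroup) := by
    have e : (V' : Set K.fixingSubgroup) = (Subtype.val : K.fixingSubgroup → GF k) ⁻¹' ((V : Set (GF k)) ∩ H) := rfl
    rw [e]
    exact (hVo.inter hH.opn).preimage continuous_subtype_val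
  haveI : Finite (K.fixingSubgroup ⧸ V') := Subgroup.quotient_finite_of_isOpen V' hV'o
  haveI : V'.FiniteIndex := Subgroup.finiteIndex_of_finite_quotient
  have hUn : V'.normalCore.Normal := inferInstance
  have hUc : IsClosed (V'.normalCore : Set K.fixingSubgroup) :=
    Subgroup.normalCore_isClosed V' (Subgroup.isClosed_of_isOpen _ hV'o)
  haveI : V'.normalCore.FiniteIndex := inferInstance
  have hUo : IsOpen (V'.normalCore : Set K.fixingSubgroup) := Subgroup.isOpen_of_isClosed_of_finiteIndex _ hUc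
  have hmem : ∀ σ : K.fixingSubgroup, σ ∈ V'.normalCore ↔ ∀ b : K.fixingSubgroup,
      ((b : GF k) * σ * (b : GF k)⁻¹ ∈ V ∧ (b : GF k) * σ * (b : GF k)⁻¹ ∈ H) := fun σ => Iff.rfl
  have hpg : IsPGroup p (K.fixingSubgroup ⧸ V'.normalCore) := by
    intro x
    obtain ⟨g, rfl⟩ := QuotientGroup.mk_surjective x
    obtain ⟨m', hm'⟩ := hH.pow g g.2
    refine ⟨m' + m, ?_⟩
    rw [← QuotientGroup.mk_pow]
    refine (QuotientGroup.eq_one_iff _).2 ((hmem _).2 fun b => ?_)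
    have h2 : (b : GF k) * ((g ^ p ^ (m' + m) : K.fixingSubgroup) : GF k) * (b : GF k)⁻¹ =
        ((b : GF k) * (g : GF k) ^ p ^ m' * (b : GF k)⁻¹) ^ p ^ m := by
      rw [conj_pow, ← pow_mul, ← pow_add]
      rfl
    rw [h2]
    have h3 := hH.conj b b.2 _ hm'
    exact ⟨hpow _ (hHE h3), H.pow_mem h3 _⟩
  have hin : ∀ Q : Ideal (OO k), Q.IsMaximal → ∀ σ : K.fixingSubgroup, (σ : GF k) ∈ inertia Q →
      (∀ b : K.fixingSubgroup, (b : GF k) * σ * (b : GF k)⁻¹ ∈ H) → σ ∈ V'.normalCore := by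
    intro Q hQ σ hσ hb
    refine (hmem σ).2 fun b => ⟨?_, hb b⟩
    obtain ⟨Q', hQ', -, -, h4⟩ := conj_in (p := p) K hQ b.2 hσ
    exact hVi Q' hQ' _ h4 (hHE (hb b))
  obtain ⟨hD, hi0, hi⟩ := bound_abs hCHR K hinf h1 hcl hTf hT V'.normalCore hUo hUn hpg
    (fun Q hQ hpQ hQT hQn σ hσ => hin Q hQ σ hσ fun b => by
      obtain ⟨Q', hQ', h5, h6, h4⟩ := conj_in (p := p) K hQ b.2 hσ
      refine hH.unr Q' hQ' (fun h => hpQ (h5.1 h)) (by rw [h6]; exact hQT) (by rw [h6]; exact hQn) _ h4 ?_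
      exact K.fixingSubgroup.mul_mem (K.fixingSubgroup.mul_mem b.2 σ.2) (K.fixingSubgroup.inv_mem b.2))
    (H.subgroupOf K.fixingSubgroup) (by
      have h7 : IsOpen ((H.subgroupOf K.fixingSubgroup : Subgroup K.fixingSubgroup) : Set K.fixingSubgroup) :=
        hH.opn.preimage continuous_subtype_val
      haveI := Subgroup.quotient_finite_of_isOpen _ h7
      rw [Subgroup.index]
      exact Nat.card_pos.ne')
    (fun Q hQ σ hσ hσH => hin Q hQ σ hσ fun b => hH.conj b b.2 σ hσH) hP hpP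
  have hUV : V'.normalCore ≤ V.subgroupOf K.fixingSubgroup := fun σ hσ => (Subgroup.normalCore_le V' hσ).1
  have hdvd : V.relIndex E ∣ V'.normalCore.index := by
    have h8 : V.relIndex E * E.relIndex K.fixingSubgroup = V.relIndex K.fixingSubgroup :=
      Subgroup.relIndex_mul_relIndex V E K.fixingSubgroup hVE hE
    exact (Dvd.intro _ h8).trans (Subgroup.index_dvd_of_le hUV)
  refine ⟨fun h => hi0 (Nat.eq_zero_of_zero_dvd (h ▸ hdvd)),
    (Nat.le_of_dvd (Nat.pos_of_ne_zero hi0) hdvd).trans hi, ?_⟩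
  have hrep : ∀ a (ha : a ∈ E), ∃ (δ : GF k) (hδ : δ ∈ E), δ ∈ dec P ∧
      (QuotientGroup.mk (⟨a, ha⟩ : E) : E ⧸ V.subgroupOf E) = QuotientGroup.mk ⟨δ, hδ⟩ := by
    intro a ha
    obtain ⟨δ, hδ, hδa⟩ := hD ⟨a, hE ha⟩
    have h9 : (δ : GF k)⁻¹ * a ∈ V := hUV hδa
    have h10 : (δ : GF k) ∈ E := by
      have h11 := E.mul_mem ha (E.inv_mem (hVE h9))
      rw [_root_.mul_inv_rev, inv_inv, mul_inv_cancel_left] at h11
      exact h11
    have h16 : (⟨δ, h10⟩ : E)⁻¹ * ⟨a, ha⟩ ∈ V.subgroupOf E := h9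
    exact ⟨δ, h10, hδ, (QuotientGroup.eq.2 h16).symm⟩
  intro a ha b hb
  obtain ⟨δ, hδ, hδP, h12⟩ := hrep a ha
  obtain ⟨ε, hε, hεP, h13⟩ := hrep b hb
  have h14 : δ * ε * δ⁻¹ * ε⁻¹ ∈ V := hVi P hP _ (comm_inertia hP hpP hδP hεP)
    (E.mul_mem (E.mul_mem (E.mul_mem hδ hε) (E.inv_mem hδ)) (E.inv_mem hε))
  have h15 : (QuotientGroup.mk ((⟨a, ha⟩ : E) * ⟨b, hb⟩ * (⟨a, ha⟩ : E)⁻¹ * (⟨b, hb⟩ : E)⁻¹) :
      E ⧸ V.subgroupOf E) = 1 := by
    rw [QuotientGroup.mk_mul, QuotientGroup.mk_mul, QuotientGroup.mk_mul, QuotientGroup.mk_inv,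
      QuotientGroup.mk_inv, h12, h13, ← QuotientGroup.mk_inv, ← QuotientGroup.mk_inv,
      ← QuotientGroup.mk_mul, ← QuotientGroup.mk_mul, ← QuotientGroup.mk_mul]
    exact (QuotientGroup.eq_one_iff _).2 h14
  have h17 : (⟨a, ha⟩ : E) * ⟨b, hb⟩ * (⟨a, ha⟩ : E)⁻¹ * (⟨b, hb⟩ : E)⁻¹ ∈ V.subgroupOf E :=
    (QuotientGroup.eq_one_iff _).1 h15
  exact h17

end

end Pool.Agent.V5helper56.DU
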